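import Pool.Agent.Lib.MP_8f66f0_al_WaldX.Spec
import Pool.Agent.Lib.MP_8f66f0_al_WaldTL.DxA

/-! X2 (Bm): properties of `bm` and `wt` (helper55). -/

set_option autoImplicit false

namespace Pool.Agent.WaldX

open Pool.Agent.Wald Pool.Agent.WaldT Pool.Agent.WaldTL Finsupp

section

variable {LL E X Y Z : Type} [CommRing LL] [Group E]

/-- Integral chains as chains with coefficients in the group ring. -/
private noncomputable def iB (LL E : Type) {Y : Type} [CommRing LL] [Group E] :
    (Y →₀ ℤ) →+ (Y →₀ MonoidAlgebra LL E) :=
  Finsupp.mapRange.addMonoidHom (Int.castAddHom (MonoidAlgebra LL E))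

private theorem iB_single (y : Y) (n : ℤ) :
    iB LL E (single y n) = single y (n : MonoidAlgebra LL E) := by
  unfold iB
  rw [Finsupp.mapRange.addMonoidHom_apply, Finsupp.mapRange_single]
  rfl

private theorem bm_single (d : X → (Y →₀ ℤ)) (x : X) (r : MonoidAlgebra LL E) :
    bm LL d (single x r) = r • iB LL E (d x) := by
  unfold bm
  rw [Finsupp.linearCombination_single]
  rfl

private theorem wt_single (ε : X → ℤ) (x : X) (r : MonoidAlgebra LL E) :
    wt LL ε (single x r) = r * (ε x : MonoidAlgebra LL E) := by
  unfold wt
  rw [Finsupp.linearCombination_single, smul_eq_mul]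

private theorem lin_iB {M : Type} [AddCommGroup M] [Module (MonoidAlgebra LL E) M]
    (φ : (Y →₀ MonoidAlgebra LL E) →ₗ[MonoidAlgebra LL E] M) (c : Y →₀ ℤ) :
    φ (iB LL E c) = c.sum fun y n => n • φ (single y 1) := by
  induction c using Finsupp.induction_linear with
  | zero => rw [map_zero, map_zero, Finsupp.sum_zero_index]
  | add c c' hc hc' =>
    rw [map_add, map_add, hc, hc', Finsupp.sum_add_index']
    · intro y
      exact zero_smul _ _
    · intro y m n
      exact add_smul _ _ _
  | single y n =>
    rw [iB_single, Finsupp.sum_single_index (by exact zero_smul _ _)]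
    have e1 : (single y (n : MonoidAlgebra LL E) : Y →₀ MonoidAlgebra LL E) =
        (n : MonoidAlgebra LL E) • single y 1 := by
      rw [Finsupp.smul_single, smul_eq_mul, mul_one]
    rw [e1, map_smul, Int.cast_smul_eq_zsmul]

private theorem single_mul_cast (g : E) (a : LL) (n : ℤ) :
    (MonoidAlgebra.single g a : MonoidAlgebra LL E) * (n : MonoidAlgebra LL E) =
      n • (MonoidAlgebra.single g a : MonoidAlgebra LL E) := by
  rw [zsmul_eq_mul]
  exact (Int.cast_commute n _).symm.eq

end

theorem bm_props (LL : Type) [CommRing LL] : S_Bm LL := by
  intro E X Y Z _ _ _ d d' ε ε'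
  obtain ⟨a1, a2, a3, -, -, -, -⟩ := dxA LL E X X
  obtain ⟨b1, b2, b3, -, -, -, -⟩ := dxA LL E Y Y
  have p4 : (∀ (g : E) (x : X), d (g • x) = (d x).mapDomain fun y => g • y) →
      ∀ (x : X) (r : MonoidAlgebra LL E), bm LL d (dx x r) = (d x).sum fun y n => n • dx y r := by
    intro hd x r
    induction r using MonoidAlgebra.induction_linear with
    | zero =>
      rw [a2, map_zero]
      symm
      refine Finset.sum_eq_zero fun y _ => ?_
      simp only [b2, smul_zero]
    | add r s hr hs =>
      rw [a3, map_add, hr, hs, ← Finsupp.sum_add]
      refine Finsupp.sum_congr fun y _ => ?_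
      rw [b3, smul_add]
    | single g a =>
      rw [a1, bm_single, hd]
      generalize d x = c
      induction c using Finsupp.induction_linear with
      | zero => rw [Finsupp.mapDomain_zero, map_zero, smul_zero, Finsupp.sum_zero_index]
      | add c c' hc hc' =>
        rw [Finsupp.mapDomain_add, map_add, smul_add, hc, hc', Finsupp.sum_add_index']
        · intro y
          exact zero_smul _ _
        · intro y m n
          exact add_smul _ _ _
      | single y n =>
        rw [Finsupp.mapDomain_single, iB_single, Finsupp.sum_single_index (by exact zero_smul _ _), b1,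
          Finsupp.smul_single, smul_eq_mul, single_mul_cast, Finsupp.smul_single]
  refine ⟨?_, ?_, ?_, p4, ?_, ?_⟩
  · intro z
    induction z using Finsupp.induction_linear with
    | zero => rw [map_zero, map_zero, map_zero]
    | add z z' hz hz' => rw [map_add, map_add, map_add, hz, hz']
    | single x r =>
      rw [bm_single, bm_single, map_smul, lin_iB]
      congr 1
      unfold zl
      rw [map_finsuppSum]
      refine Finsupp.sum_congr fun y _ => ?_
      rw [bm_single, one_smul, map_zsmul]
  · intro z
    induction z using Finsupp.induction_linear with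
    | zero => rw [map_zero]
    | add z z' hz hz' => rw [map_add, hz, hz']
    | single x r => rw [bm_single, iB_single, Finsupp.smul_single, smul_eq_mul, Int.cast_one, mul_one]
  · intro z
    induction z using Finsupp.induction_linear with
    | zero => rw [map_zero, map_zero, map_zero]
    | add z z' hz hz' => rw [map_add, map_add, map_add, hz, hz']
    | single x r =>
      rw [bm_single, wt_single, map_smul, lin_iB, smul_eq_mul]
      congr 1
      unfold zw
      rw [Finsupp.sum, Finsupp.sum, Int.cast_sum]
      refine Finset.sum_congr rfl fun y _ => ?_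
      rw [wt_single, one_mul, Int.cast_mul, zsmul_eq_mul]
  · intro hε x r
    induction r using MonoidAlgebra.induction_linear with
    | zero => rw [a2, map_zero, smul_zero]
    | add r s hr hs => rw [a3, map_add, hr, hs, smul_add]
    | single g a => rw [a1, wt_single, hε, single_mul_cast]
  · intro hd A B _ _ h z b
    unfold WaldTL.tw
    rw [map_sum]
    refine Finset.sum_congr rfl fun a _ => ?_
    beta_reduce
    generalize z a = w
    induction w using Finsupp.induction_linear with
    | zero => simp only [map_zero]
    | add w w' hw hw' => simp only [map_add, hw, hw']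
    | single x r =>
      rw [bm_single, map_smul, lin_iB, Finsupp.linearCombination_single, map_smul, p4 hd]
      congr 1
      refine Finsupp.sum_congr fun y _ => ?_
      rw [Finsupp.linearCombination_single, one_smul]

end Pool.Agent.WaldX
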