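import Pool.Agent.Lib.MP_8f66f0_al_WaldX.Spec
import Pool.Agent.Lib.MP_8f66f0_al_WaldTL.Tree

/-! X8: condition (C1) for groups with a permutation resolution of length two. -/

set_option autoImplicit false

namespace Pool.Agent.WaldX

open Pool.Agent.Wald Pool.Agent.WaldT Pool.Agent.WaldTL Finsupp

section Aux

variable {LL E X Y : Type} [CommRing LL] [Group E] [MulAction E X] [MulAction E Y]

private theorem c1x_tw_sub {A B : Type} [Fintype A] (h : A → B → MonoidAlgebra LL E)
    (z z' : A → (X →₀ MonoidAlgebra LL E)) (b : B) :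
    WaldTL.tw h (fun a => z a - z' a) b = WaldTL.tw h z b - WaldTL.tw h z' b := by
  unfold WaldTL.tw
  rw [← Finset.sum_sub_distrib]
  exact Finset.sum_congr rfl fun a _ => map_sub _ _ _

private theorem c1x_tw_sum {A B ι : Type} [Fintype A] (h : A → B → MonoidAlgebra LL E)
    (t : Finset ι) (z : ι → A → (X →₀ MonoidAlgebra LL E)) (b : B) :
    WaldTL.tw h (fun a => ∑ q ∈ t, z q a) b = ∑ q ∈ t, WaldTL.tw h (z q) b := by
  unfold WaldTL.tw
  rw [Finset.sum_comm]
  exact Finset.sum_congr rfl fun a _ => map_sum _ _ _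

private theorem c1x_tw_smul {A B : Type} [Fintype A] (h : A → B → MonoidAlgebra LL E)
    (c : MonoidAlgebra LL E) (z : A → (X →₀ MonoidAlgebra LL E)) (b : B) :
    WaldTL.tw h (fun a => c • z a) b = c • WaldTL.tw h z b := by
  unfold WaldTL.tw
  rw [Finset.smul_sum]
  exact Finset.sum_congr rfl fun a _ => map_smul _ _ _

private theorem c1x_tw_zsmul {A B : Type} [Fintype A] (h : A → B → MonoidAlgebra LL E)
    (c : ℤ) (z : A → (X →₀ MonoidAlgebra LL E)) (b : B) :
    WaldTL.tw h (fun a => c • z a) b = c • WaldTL.tw h z b := by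
  unfold WaldTL.tw
  rw [Finset.smul_sum]
  exact Finset.sum_congr rfl fun a _ => map_zsmul _ _ _

private theorem c1x_supp_lc {M : Type} (g : X → (M →₀ MonoidAlgebra LL E))
    (z : X →₀ MonoidAlgebra LL E) (e : M)
    (h : Finsupp.linearCombination (MonoidAlgebra LL E) g z e ≠ 0) :
    ∃ x, z x ≠ 0 ∧ g x e ≠ 0 := by
  by_contra hcon
  push Not at hcon
  apply h
  rw [Finsupp.linearCombination_apply, Finsupp.sum, Finsupp.finsetSum_apply]
  refine Finset.sum_eq_zero fun x hx => ?_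
  rw [Finsupp.smul_apply, hcon x (Finsupp.mem_support_iff.1 hx), smul_zero]

private theorem c1x_supp_bm {M : Type} (d : X → (M →₀ ℤ)) (z : X →₀ MonoidAlgebra LL E) (e : M)
    (h : bm LL d z e ≠ 0) : ∃ x, z x ≠ 0 ∧ e ∈ (d x).support := by
  obtain ⟨x, hx, hx'⟩ := c1x_supp_lc _ z e h
  refine ⟨x, hx, Finsupp.mem_support_iff.2 fun h0 => hx' ?_⟩
  rw [Finsupp.mapRange_apply, h0, Int.cast_zero]

private theorem c1x_supp_tw {A B : Type} [Fintype A] (h : A → B → MonoidAlgebra LL E)
    (z : A → (X →₀ MonoidAlgebra LL E)) (b : B) (e : X) (he : WaldTL.tw h z b e ≠ 0) :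
    ∃ a x, z a x ≠ 0 ∧ WaldTL.dx x (h a b) e ≠ 0 := by
  unfold WaldTL.tw at he
  rw [Finsupp.finsetSum_apply] at he
  obtain ⟨a, -, ha⟩ := Finset.exists_ne_zero_of_sum_ne_zero he
  obtain ⟨x, hx, hx'⟩ := c1x_supp_lc _ (z a) e ha
  exact ⟨a, x, hx, hx'⟩

private theorem c1x_sum {M : Type} [AddCommGroup M] {Z : Type} (c : Z →₀ ℤ) (f : Z → ℤ → M) :
    c.sum f = ∑ y : {y // y ∈ c.support}, f y.1 (c y.1) := by
  rw [Finsupp.sum, ← Finset.sum_coe_sort c.support (fun y => f y (c y))]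

private theorem c1x_zl_single {Z Z' : Type} (d : Z → (Z' →₀ ℤ)) (x : Z) :
    zl d (single x 1) = d x := by
  unfold zl
  rw [Finsupp.sum_single_index (by rw [zero_smul]), one_smul]

end Aux

/-- X8. -/
theorem c1X (LL : Type) [CommRing LL] (h1 : S_Sl LL) (h2 : S_Bm LL) (h3 : S_Con LL)
    (h4 : S_SlI LL) (h5 : S_Im LL) (h6 : S_Ker LL) : S_C1X LL := by
  classical
  intro E _ T hV0 hV1 hV2 a b s h k hkh
  have aA := dxA LL
  have aT := tw_props LL (dxA LL) (dxSl LL)
  have aR := rel LL (dxA LL) (relOne LL (dxA LL))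
  obtain ⟨c0, s0, s1, hc0, hs0, hs1, hs1', hdd, hed⟩ := h3 E T
  -- properties of `bm` and `wt`
  have wt_dx : ∀ (x : T.X₀) (r : MonoidAlgebra LL E), wt LL T.ε (WaldTL.dx x r) = T.ε x • r :=
    (h2 E T.X₀ T.X₀ T.X₀ (fun _ => 0) (fun _ => 0) (fun _ => 0) T.ε).2.2.2.2.1 T.ε_smul
  have bm1_dx : ∀ (x : T.X₁) (r : MonoidAlgebra LL E), bm LL T.d₁ (WaldTL.dx x r) =
      (T.d₁ x).sum fun y n => n • WaldTL.dx y r :=
    (h2 E T.X₁ T.X₀ T.X₀ T.d₁ (fun _ => 0) (fun _ => 0) (fun _ => 0)).2.2.2.1 T.d₁_smul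
  have bm1_tw : ∀ (z : Fin a → (T.X₁ →₀ MonoidAlgebra LL E)) (j : Fin b),
      WaldTL.tw h (fun i => bm LL T.d₁ (z i)) j = bm LL T.d₁ (WaldTL.tw h z j) :=
    (h2 E T.X₁ T.X₀ T.X₀ T.d₁ (fun _ => 0) (fun _ => 0) (fun _ => 0)).2.2.2.2.2 T.d₁_smul
      (Fin a) (Fin b) h
  have bm2_tw : ∀ (z : Fin a → (T.X₂ →₀ MonoidAlgebra LL E)) (j : Fin b),
      WaldTL.tw h (fun i => bm LL T.d₂ (z i)) j = bm LL T.d₂ (WaldTL.tw h z j) :=
    (h2 E T.X₂ T.X₁ T.X₀ T.d₂ (fun _ => 0) (fun _ => 0) (fun _ => 0)).2.2.2.2.2 T.d₂_smul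
      (Fin a) (Fin b) h
  have dx00 : ∀ x : T.X₀, WaldTL.dx x (0 : MonoidAlgebra LL E) = 0 := (aA E T.X₀ T.X₀).2.1
  have hkh' : ∀ l j, ∑ i, k l i * h i j = 0 := fun l j => congrFun (congrFun hkh l) j
  -- the elements `D l i`
  let D : Fin s → Fin a → (T.X₀ →₀ MonoidAlgebra LL E) := fun l i =>
    ∑ y : {y // y ∈ c0.support}, c0 y.1 • WaldTL.dx y.1 (k l i)
  have hc0' : ∑ y : {y // y ∈ c0.support}, c0 y.1 * T.ε y.1 = 1 := by
    rw [← hc0]
    unfold zw
    rw [c1x_sum]
  have hDw : ∀ l i, wt LL T.ε (D l i) = k l i := by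
    intro l i
    simp only [D, map_sum, map_zsmul, wt_dx, smul_smul]
    rw [← Finset.sum_smul, hc0', one_smul]
  have hDt : ∀ l j, WaldTL.tw h (D l) j = 0 := by
    intro l j
    change WaldTL.tw h (fun i => ∑ y : {y // y ∈ c0.support}, c0 y.1 • WaldTL.dx y.1 (k l i)) j = 0
    rw [c1x_tw_sum h Finset.univ
      (fun (y : {y // y ∈ c0.support}) i => c0 y.1 • WaldTL.dx y.1 (k l i)) j]
    refine Finset.sum_eq_zero fun y _ => ?_
    rw [c1x_tw_zsmul h (c0 y.1) (fun i => WaldTL.dx y.1 (k l i)) j,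
      (aT E T.X₀ T.X₀ (Fin a) (Fin b) h).1 y.1 (k l) j, hkh' l j, dx00, smul_zero]
  -- the finite sets
  let S : Finset T.X₀ := Finset.univ.biUnion fun p : Fin s × Fin a => (D p.1 p.2).support
  let B1 : Finset T.X₁ := S.biUnion fun y => (s0 y).support
  let S1 : Finset T.X₁ := B1.biUnion fun e => Finset.univ.biUnion fun p : Fin a × Fin b =>
    (WaldTL.dx e (h p.1 p.2)).support
  let B2 : Finset T.X₂ := S1.biUnion fun e => (s1 e).support
  let I : Submodule (MonoidAlgebra LL E) (Fin b → MonoidAlgebra LL E) :=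
    LinearMap.range (Matrix.vecMulLinear h)
  obtain ⟨Q, x, v, hvI, hIm⟩ := h5 E T.X₂ hV2 (Fin b) I B2
  have hvI' : ∀ q, ∃ u : Fin a → MonoidAlgebra LL E, ∀ j, ∑ i, u i * h i j = v q j := by
    intro q
    obtain ⟨u, hu⟩ := hvI q
    exact ⟨u, fun j => congrFun hu j⟩
  choose u hu using hvI'
  let B1' : Finset T.X₁ := B1 ∪ Finset.univ.biUnion fun p : Fin Q × Fin a =>
    (bm LL T.d₂ (WaldTL.dx (x p.1) (u p.1 p.2))).support
  obtain ⟨P, e, κ, hκ, hKer⟩ := h6 E T.X₁ hV1 (Fin a) (Fin b) h B1'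
  obtain ⟨N, ρ, r1, r2⟩ := aR E T.X₀ hV0 (Fin a)
    ((Fin s × {y // y ∈ c0.support}) ⊕ (Σ p : Fin P, {v // v ∈ (T.d₁ (e p)).support}))
    (Sum.elim (fun q => q.2.1) (fun q => q.2.1))
    (Sum.elim (fun q => k q.1) (fun q => κ q.1))
  refine ⟨P, Matrix.of fun p i => κ p i, N,
    Matrix.of fun t l => ∑ y : {y // y ∈ c0.support}, T.ε y.1 • ρ t (Sum.inl (l, y)),
    Matrix.of fun t p => ∑ v : {v // v ∈ (T.d₁ (e p)).support}, T.ε v.1 • ρ t (Sum.inr ⟨p, v⟩),
    ?_, ?_, ?_⟩
  · ext1 p j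
    exact hκ p j
  · ext1 t i
    have h7 := congrArg (wt LL T.ε) (r1 t i)
    rw [map_sum, map_zero] at h7
    simp only [map_smul, wt_dx, smul_eq_mul, Fintype.sum_sum_type, Sum.elim_inl,
      Sum.elim_inr, Fintype.sum_prod_type, Fintype.sum_sigma] at h7
    rw [Matrix.add_apply, Matrix.mul_apply, Matrix.mul_apply, Matrix.zero_apply]
    simp only [Matrix.of_apply]
    rw [← h7]
    congr 1
    · refine Finset.sum_congr rfl fun l _ => ?_
      rw [Finset.sum_mul]
      refine Finset.sum_congr rfl fun y _ => ?_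
      rw [smul_mul_assoc, mul_smul_comm]
    · refine Finset.sum_congr rfl fun p _ => ?_
      rw [Finset.sum_mul]
      refine Finset.sum_congr rfl fun y _ => ?_
      rw [smul_mul_assoc, mul_smul_comm]
  · intro c hc
    have hc' : ∀ i, ∑ l, c l * k l i = 0 := fun i => congrFun hc i
    let y : Fin a → (T.X₀ →₀ MonoidAlgebra LL E) := fun i => ∑ l, c l • D l i
    have hyw : ∀ i, wt LL T.ε (y i) = 0 := by
      intro i
      rw [← hc' i]
      simp only [y, map_sum, map_smul, hDw, smul_eq_mul]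
    have hyS : ∀ i v, y i v ≠ 0 → v ∈ S := by
      intro i v hv
      by_contra h7
      apply hv
      simp only [y, Finsupp.finsetSum_apply, Finsupp.smul_apply]
      refine Finset.sum_eq_zero fun l _ => ?_
      have h8 : D l i v = 0 := by
        by_contra h9
        exact h7 (Finset.mem_biUnion.2 ⟨(l, i), Finset.mem_univ _, Finsupp.mem_support_iff.2 h9⟩)
      rw [h8, smul_zero]
    have hyt : ∀ j, WaldTL.tw h y j = 0 := by
      intro j
      change WaldTL.tw h (fun i => ∑ l, c l • D l i) j = 0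
      rw [c1x_tw_sum h Finset.univ (fun l i => c l • D l i) j]
      refine Finset.sum_eq_zero fun l _ => ?_
      rw [c1x_tw_smul h (c l) (D l) j, hDt, smul_zero]
    -- the chain `z`
    let z : Fin a → (T.X₁ →₀ MonoidAlgebra LL E) := fun i => bm LL s0 (y i)
    have hz1 : ∀ i, bm LL T.d₁ (z i) = y i := fun i => hs0 (y i) (hyw i)
    have hzB : ∀ i e, z i e ≠ 0 → e ∈ B1 := by
      intro i e he
      obtain ⟨x, hx, hx'⟩ := c1x_supp_bm s0 (y i) e he
      exact Finset.mem_biUnion.2 ⟨x, hyS i x hx, hx'⟩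
    have hz2 : ∀ j, bm LL T.d₁ (WaldTL.tw h z j) = 0 := by
      intro j
      rw [← bm1_tw z j]
      have : (fun i => bm LL T.d₁ (z i)) = y := funext hz1
      rw [this]
      exact hyt j
    let w : Fin b → (T.X₂ →₀ MonoidAlgebra LL E) := fun j => bm LL s1 (WaldTL.tw h z j)
    have hw : ∀ j, bm LL T.d₂ (w j) = WaldTL.tw h z j := fun j => hs1 _ (hz2 j)
    have hwB : ∀ j x, w j x ≠ 0 → x ∈ B2 := by
      intro j x hx
      obtain ⟨e, he, he'⟩ := c1x_supp_bm s1 (WaldTL.tw h z j) x hx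
      obtain ⟨i, x', hx1, hx2⟩ := c1x_supp_tw h z j e he
      refine Finset.mem_biUnion.2 ⟨e, ?_, he'⟩
      refine Finset.mem_biUnion.2 ⟨x', hzB i x' hx1, ?_⟩
      exact Finset.mem_biUnion.2 ⟨(i, j), Finset.mem_univ _, Finsupp.mem_support_iff.2 hx2⟩
    -- the slices
    have hsl : ∀ e : T.X₁, (fun j => sl (bm LL T.d₂ (w j)) e) ∈ I := by
      have g1 := h1 E T.X₁
      choose S' hS1 hS2 using g1.2.2.1
      let U : Finset T.X₁ := Finset.univ.biUnion fun i => S' (z i)
      have hzU : z = fun i => ∑ x ∈ U, WaldTL.dx x (sl (z i) x) := by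
        funext i
        exact hS2 (z i) U (Finset.subset_biUnion_of_mem (fun i => S' (z i)) (Finset.mem_univ i))
      have htw : ∀ j, WaldTL.tw h z j =
          ∑ x ∈ U, WaldTL.dx x (∑ i, sl (z i) x * h i j) := by
        intro j
        conv_lhs => rw [hzU]
        rw [c1x_tw_sum h U (fun x i => WaldTL.dx x (sl (z i) x)) j]
        refine Finset.sum_congr rfl fun x _ => ?_
        exact (aT E T.X₁ T.X₁ (Fin a) (Fin b) h).1 x (fun i => sl (z i) x) j
      have hsum : ∀ (t : Finset T.X₁) (f : T.X₁ → MonoidAlgebra LL E) (e : T.X₁),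
          sl (∑ x ∈ t, WaldTL.dx x (f x)) e = if e ∈ t then f e else 0 := by
        intro t f e
        induction t using Finset.induction_on with
        | empty =>
          rw [Finset.sum_empty, if_neg (Finset.notMem_empty e)]
          have g2 := g1.1 0 0 e
          rw [add_zero] at g2
          exact left_eq_add.1 g2
        | insert x t hx ih =>
          rw [Finset.sum_insert hx, g1.1, ih]
          by_cases hxe : x = e
          · rw [(g1.2.1 x e (f x)).1 hxe, ← hxe, if_neg hx, add_zero,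
              if_pos (Finset.mem_insert_self x t)]
          · rw [(g1.2.1 x e (f x)).2 hxe, zero_add]
            have : e ∈ insert x t ↔ e ∈ t := by
              rw [Finset.mem_insert]
              exact ⟨fun h => h.resolve_left fun h' => hxe h'.symm, Or.inr⟩
            simp only [this]
      intro e
      have h7 : (fun j => sl (bm LL T.d₂ (w j)) e) =
          if e ∈ U then Matrix.vecMulLinear h (fun i => sl (z i) e) else 0 := by
        funext j
        rw [hw j, htw j, hsum]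
        by_cases he : e ∈ U
        · rw [if_pos he, if_pos he]
          rfl
        · rw [if_neg he, if_neg he]
          rfl
      rw [h7]
      split_ifs
      · exact LinearMap.mem_range_self _ _
      · exact I.zero_mem
    have hslw := h4 E T.X₂ T.X₁ T.d₂ s1 hs1' T.d₂_smul (Fin b) I w hsl
    obtain ⟨r, hr⟩ := hIm w hwB hslw
    let w' : Fin a → (T.X₂ →₀ MonoidAlgebra LL E) := fun i =>
      ∑ q, r q • WaldTL.dx (x q) (u q i)
    have hw' : ∀ j, WaldTL.tw h w' j = w j := by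
      intro j
      change WaldTL.tw h (fun i => ∑ q, r q • WaldTL.dx (x q) (u q i)) j = w j
      rw [c1x_tw_sum h Finset.univ (fun q i => r q • WaldTL.dx (x q) (u q i)) j, hr j]
      refine Finset.sum_congr rfl fun q _ => ?_
      rw [c1x_tw_smul h (r q) (fun i => WaldTL.dx (x q) (u q i)) j,
        (aT E T.X₂ T.X₂ (Fin a) (Fin b) h).1 (x q) (u q) j, hu q j]
    let z' : Fin a → (T.X₁ →₀ MonoidAlgebra LL E) := fun i => z i - bm LL T.d₂ (w' i)
    have hz'B : ∀ i e, z' i e ≠ 0 → e ∈ B1' := by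
      intro i e he
      by_contra hcon
      rw [Finset.mem_union] at hcon
      push Not at hcon
      apply he
      change (z i - bm LL T.d₂ (w' i)) e = 0
      rw [Finsupp.sub_apply]
      have h7 : z i e = 0 := by
        by_contra h8
        exact hcon.1 (hzB i e h8)
      have h8 : bm LL T.d₂ (w' i) e = 0 := by
        simp only [w', map_sum, map_smul, Finsupp.finsetSum_apply, Finsupp.smul_apply]
        refine Finset.sum_eq_zero fun q _ => ?_
        have h9 : bm LL T.d₂ (WaldTL.dx (x q) (u q i)) e = 0 := by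
          by_contra h10
          exact hcon.2 (Finset.mem_biUnion.2 ⟨(q, i), Finset.mem_univ _,
            Finsupp.mem_support_iff.2 h10⟩)
        rw [h9, smul_zero]
      rw [h7, h8, sub_zero]
    have hz't : ∀ j, WaldTL.tw h z' j = 0 := by
      intro j
      change WaldTL.tw h (fun i => z i - bm LL T.d₂ (w' i)) j = 0
      rw [c1x_tw_sub h z (fun i => bm LL T.d₂ (w' i)) j, bm2_tw w' j, hw' j, hw j, sub_self]
    obtain ⟨ω, hω⟩ := hKer z' hz'B hz't
    have hy' : ∀ i, y i = ∑ p, ω p • ∑ v : {v // v ∈ (T.d₁ (e p)).support},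
        (T.d₁ (e p)) v.1 • WaldTL.dx v.1 (κ p i) := by
      intro i
      have h7 : bm LL T.d₁ (z' i) = y i := by
        change bm LL T.d₁ (z i - bm LL T.d₂ (w' i)) = y i
        rw [map_sub, hdd, sub_zero, hz1]
      rw [← h7, hω i, map_sum]
      refine Finset.sum_congr rfl fun p _ => ?_
      rw [map_smul, bm1_dx, c1x_sum]
    obtain ⟨ζ, hζ⟩ := r2 (Sum.elim (fun q => c0 q.2.1 • c q.1)
      (fun q => - ((T.d₁ (e q.1)) q.2.1 • ω q.1))) (by
      intro i
      rw [Fintype.sum_sum_type, Fintype.sum_prod_type, Fintype.sum_sigma]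
      simp only [Sum.elim_inl, Sum.elim_inr, neg_smul, Finset.sum_neg_distrib]
      have h7 : ∑ l, ∑ y : {y // y ∈ c0.support}, (c0 y.1 • c l) • WaldTL.dx y.1 (k l i) =
          y i := by
        refine Finset.sum_congr rfl fun l _ => ?_
        rw [Finset.smul_sum]
        refine Finset.sum_congr rfl fun y _ => ?_
        rw [smul_assoc, smul_comm]
      rw [h7, hy' i, add_neg_eq_zero]
      refine Finset.sum_congr rfl fun p _ => ?_
      rw [Finset.smul_sum]
      refine Finset.sum_congr rfl fun v _ => ?_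
      rw [smul_assoc, smul_comm])
    refine ⟨ζ, ?_, ?_⟩
    · funext l
      change ∑ t, ζ t * ∑ y : {y // y ∈ c0.support}, T.ε y.1 • ρ t (Sum.inl (l, y)) = c l
      have h7 : ∀ y : {y // y ∈ c0.support}, c0 y.1 • c l = ∑ t, ζ t * ρ t (Sum.inl (l, y)) :=
        fun y => hζ (Sum.inl (l, y))
      calc ∑ t, ζ t * ∑ y : {y // y ∈ c0.support}, T.ε y.1 • ρ t (Sum.inl (l, y))
          = ∑ t, ∑ y : {y // y ∈ c0.support}, T.ε y.1 • (ζ t * ρ t (Sum.inl (l, y))) := by
            refine Finset.sum_congr rfl fun t _ => ?_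
            rw [Finset.mul_sum]
            exact Finset.sum_congr rfl fun y _ => mul_smul_comm _ _ _
        _ = ∑ y : {y // y ∈ c0.support}, T.ε y.1 • ∑ t, ζ t * ρ t (Sum.inl (l, y)) := by
            rw [Finset.sum_comm]
            exact Finset.sum_congr rfl fun y _ => (Finset.smul_sum).symm
        _ = ∑ y : {y // y ∈ c0.support}, (c0 y.1 * T.ε y.1) • c l := by
            refine Finset.sum_congr rfl fun y _ => ?_
            rw [← h7 y, smul_smul, mul_comm]
        _ = c l := by rw [← Finset.sum_smul, hc0', one_smul]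
    · funext p
      change ∑ t, ζ t * ∑ v : {v // v ∈ (T.d₁ (e p)).support}, T.ε v.1 • ρ t (Sum.inr ⟨p, v⟩) = 0
      have h7 : ∀ v : {v // v ∈ (T.d₁ (e p)).support}, - ((T.d₁ (e p)) v.1 • ω p) =
          ∑ t, ζ t * ρ t (Sum.inr ⟨p, v⟩) := fun v => hζ (Sum.inr ⟨p, v⟩)
      have h8 : ∑ v : {v // v ∈ (T.d₁ (e p)).support}, (T.d₁ (e p)) v.1 * T.ε v.1 = 0 := by
        have h9 := T.ε_d (single (e p) 1)
        rw [c1x_zl_single] at h9
        unfold zw at h9
        rw [c1x_sum] at h9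
        exact h9
      calc ∑ t, ζ t * ∑ v : {v // v ∈ (T.d₁ (e p)).support}, T.ε v.1 • ρ t (Sum.inr ⟨p, v⟩)
          = ∑ t, ∑ v : {v // v ∈ (T.d₁ (e p)).support},
              T.ε v.1 • (ζ t * ρ t (Sum.inr ⟨p, v⟩)) := by
            refine Finset.sum_congr rfl fun t _ => ?_
            rw [Finset.mul_sum]
            exact Finset.sum_congr rfl fun y _ => mul_smul_comm _ _ _
        _ = ∑ v : {v // v ∈ (T.d₁ (e p)).support},
              T.ε v.1 • ∑ t, ζ t * ρ t (Sum.inr ⟨p, v⟩) := by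
            rw [Finset.sum_comm]
            exact Finset.sum_congr rfl fun y _ => (Finset.smul_sum).symm
        _ = ∑ v : {v // v ∈ (T.d₁ (e p)).support},
              - (((T.d₁ (e p)) v.1 * T.ε v.1) • ω p) := by
            refine Finset.sum_congr rfl fun v _ => ?_
            rw [← h7 v, smul_neg, smul_smul, mul_comm]
        _ = 0 := by
            rw [Finset.sum_neg_distrib, ← Finset.sum_smul, h8, zero_smul, neg_zero]

end Pool.Agent.WaldX
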