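import Pool.Agent.Lib.MP_8f66f0_al_WaldX.SpecY

/-! Properties of `cf`. -/

set_option autoImplicit false

namespace Pool.Agent.WaldX

open Pool.Agent.Wald Pool.Agent.WaldT Pool.Agent.WaldTL Pool.Agent.Ind Finsupp

private theorem Cf_ind {B Q : Type} [Group Q] {p : (B →₀ MonoidAlgebra ℤ Q) → Prop} (h0 : p 0)
    (hadd : ∀ x y, p x → p y → p (x + y))
    (hs : ∀ (b : B) (q : Q) (n : ℤ), p (single b (MonoidAlgebra.single q n)))
    (z : B →₀ MonoidAlgebra ℤ Q) : p z := by
  induction z using Finsupp.induction_linear with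
  | zero => exact h0
  | add f g hf hg => exact hadd f g hf hg
  | single b r =>
    induction r using MonoidAlgebra.induction_linear with
    | zero =>
      rw [Finsupp.single_zero]
      exact h0
    | add f g hf hg =>
      rw [Finsupp.single_add]
      exact hadd _ _ hf hg
    | single q n => exact hs b q n

private theorem Cf_one {B Q : Type} [Group Q] (b : B) (q : Q) (n : ℤ) :
    cf B Q (single b (MonoidAlgebra.single q n)) = single ⟨b, q⟩ n := by
  unfold cf
  rw [Finsupp.liftAddHom_apply_single]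
  show Finsupp.mapDomain (fun q : Q => (⟨b, q⟩ : Fr B Q)) (MonoidAlgebra.single q n).coeff = _
  rw [MonoidAlgebra.coeff_single, Finsupp.mapDomain_single]

private noncomputable def Cf_inv (B Q : Type) [Group Q] : (Fr B Q →₀ ℤ) →+
    (B →₀ MonoidAlgebra ℤ Q) :=
  Finsupp.liftAddHom fun x => (Finsupp.singleAddHom x.b).comp
    (MonoidAlgebra.singleAddHom x.q : ℤ →+ MonoidAlgebra ℤ Q)

private theorem Cf_inv_single {B Q : Type} [Group Q] (x : Fr B Q) (n : ℤ) :
    Cf_inv B Q (single x n) = single x.b (MonoidAlgebra.single x.q n) := by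
  unfold Cf_inv
  rw [Finsupp.liftAddHom_apply_single]
  rfl

private theorem Cf_bij (B Q : Type) [Group Q] : Function.Bijective (cf B Q) := by
  refine Function.bijective_iff_has_inverse.2 ⟨Cf_inv B Q, ?_, ?_⟩
  · intro z
    induction z using Cf_ind with
    | h0 => rw [map_zero, map_zero]
    | hadd x y hx hy => rw [map_add, map_add, hx, hy]
    | hs b q n => rw [Cf_one, Cf_inv_single]
  · intro z
    induction z using Finsupp.induction_linear with
    | zero => rw [map_zero, map_zero]
    | add f g hf hg => rw [map_add, map_add, hf, hg]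
    | single x n => rw [Cf_inv_single, Cf_one]

private theorem Cf_smul {B Q : Type} [Group Q] (g : Q) (z : B →₀ MonoidAlgebra ℤ Q) :
    cf B Q ((MonoidAlgebra.single g (1 : ℤ) : MonoidAlgebra ℤ Q) • z) =
      (cf B Q z).mapDomain fun x => g • x := by
  induction z using Cf_ind with
  | h0 => rw [smul_zero, map_zero, Finsupp.mapDomain_zero]
  | hadd x y hx hy => rw [smul_add, map_add, map_add, hx, hy, Finsupp.mapDomain_add]
  | hs b q n =>
    rw [Finsupp.smul_single, smul_eq_mul, MonoidAlgebra.single_mul_single, one_mul, Cf_one,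
      Cf_one, Finsupp.mapDomain_single]
    rfl

private theorem Cf_zl_add {X Y : Type} (d : X → (Y →₀ ℤ)) (c c' : X →₀ ℤ) :
    zl d (c + c') = zl d c + zl d c' := by
  unfold zl
  exact Finsupp.sum_add_index' (fun x => zero_smul _ (d x)) (fun x m n => add_smul m n (d x))

private theorem Cf_zl_single {X Y : Type} (d : X → (Y →₀ ℤ)) (x : X) (n : ℤ) :
    zl d (single x n) = n • d x := by
  unfold zl
  exact Finsupp.sum_single_index (zero_smul _ (d x))

private theorem Cf_zl {B B' Q : Type} [Group Q]
    (D : (B →₀ MonoidAlgebra ℤ Q) →ₗ[MonoidAlgebra ℤ Q] (B' →₀ MonoidAlgebra ℤ Q))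
    (z : B →₀ MonoidAlgebra ℤ Q) :
    cf B' Q (D z) = zl (fun x : Fr B Q => cf B' Q
      ((MonoidAlgebra.single x.q (1 : ℤ) : MonoidAlgebra ℤ Q) • D (single x.b 1)))
        (cf B Q z) := by
  induction z using Cf_ind with
  | h0 =>
    rw [map_zero, map_zero, map_zero]
    unfold zl
    rw [Finsupp.sum_zero_index]
  | hadd x y hx hy =>
    rw [map_add, map_add, map_add, hx, hy, Cf_zl_add]
  | hs b q n =>
    rw [Cf_one, Cf_zl_single]
    have e1 : (single b (MonoidAlgebra.single q n) : B →₀ MonoidAlgebra ℤ Q) =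
        n • ((MonoidAlgebra.single q (1 : ℤ) : MonoidAlgebra ℤ Q) •
          (single b 1 : B →₀ MonoidAlgebra ℤ Q)) := by
      rw [Finsupp.smul_single, smul_eq_mul, mul_one, Finsupp.smul_single,
        MonoidAlgebra.smul_single, smul_eq_mul, mul_one]
    rw [e1, map_zsmul, map_zsmul, LinearMap.map_smul]

theorem cf_props : S_Cf := by
  intro B B' Q _
  exact ⟨Cf_one, Cf_bij B Q, Cf_smul, Cf_zl⟩

end Pool.Agent.WaldX
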