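import Pool.Agent.Lib.MP_8f66f0_al_WaldX.Spec

/-!
# WaldX, module Con: a contraction of the complex
-/

set_option autoImplicit false

namespace Pool.Agent.WaldX

open Pool.Agent.Wald Pool.Agent.WaldT Pool.Agent.WaldTL Finsupp

namespace ConAux

theorem zl_eq {X Y : Type} (d : X → (Y →₀ ℤ)) (c : X →₀ ℤ) :
    zl d c = Finsupp.linearCombination ℤ d c := rfl

theorem zw_eq {X : Type} (ε : X → ℤ) (c : X →₀ ℤ) :
    zw ε c = Finsupp.linearCombination ℤ ε c := rfl

/-- Equality of linear combinations may be checked on the basis. -/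
theorem lin_eq {X M : Type} [AddCommGroup M] (f g : (X →₀ ℤ) →ₗ[ℤ] M)
    (h : ∀ x, f (single x 1) = g (single x 1)) (c : X →₀ ℤ) : f c = g c := by
  have h1 : f = g := by
    refine Finsupp.lhom_ext' fun x => ?_
    ext
    exact h x
  rw [h1]

section

variable (LL : Type) {E X Y : Type} [CommRing LL] [Group E]

/-- The coefficients of an integral chain in the group ring. -/
noncomputable def cf (c : Y →₀ ℤ) : Y →₀ MonoidAlgebra LL E :=
  c.mapRange (fun n : ℤ => (n : MonoidAlgebra LL E)) Int.cast_zero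

theorem cf_sub (c c' : Y →₀ ℤ) : cf LL (E := E) (c - c') = cf LL c - cf LL c' := by
  ext1 y
  simp only [cf, Finsupp.mapRange_apply, Finsupp.sub_apply, Int.cast_sub]

theorem cf_smul (n : ℤ) (c : Y →₀ ℤ) :
    cf LL (E := E) (n • c) = (n : MonoidAlgebra LL E) • cf LL c := by
  ext1 y
  simp only [cf, Finsupp.mapRange_apply, Finsupp.smul_apply, smul_eq_mul, Int.cast_mul]

theorem cf_zero : cf LL (E := E) (0 : Y →₀ ℤ) = 0 := by
  ext1 y
  simp only [cf, Finsupp.mapRange_apply, Finsupp.coe_zero, Pi.zero_apply, Int.cast_zero]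

theorem bm_eq (d : X → (Y →₀ ℤ)) (z : X →₀ MonoidAlgebra LL E) :
    bm LL d z = Finsupp.linearCombination (MonoidAlgebra LL E) (fun x => cf LL (d x)) z := rfl

theorem bm_sub (d d' : X → (Y →₀ ℤ)) (z : X →₀ MonoidAlgebra LL E) :
    bm LL (fun x => d x - d' x) z = bm LL d z - bm LL d' z := by
  rw [bm_eq, bm_eq, bm_eq, Finsupp.linearCombination_apply, Finsupp.linearCombination_apply,
    Finsupp.linearCombination_apply, Finsupp.sum, Finsupp.sum, Finsupp.sum,
    ← Finset.sum_sub_distrib]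
  refine Finset.sum_congr rfl fun x _ => ?_
  rw [cf_sub, smul_sub]

theorem bm_zero (z : X →₀ MonoidAlgebra LL E) :
    bm LL (fun _ => (0 : Y →₀ ℤ)) z = 0 := by
  rw [bm_eq, Finsupp.linearCombination_apply, Finsupp.sum]
  refine Finset.sum_eq_zero fun x _ => ?_
  rw [cf_zero, smul_zero]

theorem bm_wt (ε : X → ℤ) (c₀ : Y →₀ ℤ) (z : X →₀ MonoidAlgebra LL E) :
    bm LL (fun x => ε x • c₀) z = wt LL ε z • cf LL c₀ := by
  rw [bm_eq, wt, Finsupp.linearCombination_apply, Finsupp.linearCombination_apply, Finsupp.sum,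
    Finsupp.sum, Finset.sum_smul]
  refine Finset.sum_congr rfl fun x _ => ?_
  rw [cf_smul, smul_eq_mul, mul_smul]

theorem wt_zero (z : X →₀ MonoidAlgebra LL E) : wt LL (fun _ => (0 : ℤ)) z = 0 := by
  rw [wt, Finsupp.linearCombination_apply, Finsupp.sum]
  refine Finset.sum_eq_zero fun x _ => ?_
  rw [Int.cast_zero, smul_zero]

end

end ConAux

open ConAux

theorem con (LL : Type) [CommRing LL] (h : S_Bm LL) : S_Con LL := by
  intro E _ T
  obtain ⟨c₀, hc₀⟩ := T.surj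
  have hs0 : ∀ x : T.X₀, ∃ b, zl T.d₁ b = single x 1 - T.ε x • c₀ := by
    intro x
    apply T.ex₀
    have h0 : Finsupp.linearCombination ℤ T.ε c₀ = 1 := hc₀
    rw [zw_eq, map_sub, map_smul, h0, Finsupp.linearCombination_single]
    simp
  choose s₀ hs₀ using hs0
  have h1 : ∀ c : T.X₀ →₀ ℤ, zl T.d₁ (zl s₀ c) = c - zw T.ε c • c₀ := by
    intro c
    refine lin_eq ((Finsupp.linearCombination ℤ T.d₁).comp (Finsupp.linearCombination ℤ s₀))
      (LinearMap.id - (Finsupp.linearCombination ℤ T.ε).smulRight c₀) (fun x => ?_) c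
    rw [LinearMap.comp_apply, Finsupp.linearCombination_single, one_smul, LinearMap.sub_apply,
      LinearMap.id_apply, LinearMap.smulRight_apply, Finsupp.linearCombination_single, one_smul]
    exact hs₀ x
  have hs1 : ∀ x : T.X₁, ∃ b, zl T.d₂ b = single x 1 - zl s₀ (T.d₁ x) := by
    intro x
    apply T.ex₁
    have h2 : zl T.d₁ (single x 1) = T.d₁ x := by
      rw [zl_eq, Finsupp.linearCombination_single, one_smul]
    have h3 : zw T.ε (T.d₁ x) = 0 := by
      rw [← h2]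
      exact T.ε_d _
    rw [zl_eq, map_sub, ← zl_eq, ← zl_eq, h1, h2, h3, zero_smul, sub_zero, sub_self]
  choose s₁ hs₁ using hs1
  have h2 : ∀ c : T.X₁ →₀ ℤ, zl T.d₂ (zl s₁ c) = c - zl s₀ (zl T.d₁ c) := by
    intro c
    refine lin_eq ((Finsupp.linearCombination ℤ T.d₂).comp (Finsupp.linearCombination ℤ s₁))
      (LinearMap.id - (Finsupp.linearCombination ℤ s₀).comp (Finsupp.linearCombination ℤ T.d₁))
      (fun x => ?_) c
    rw [LinearMap.comp_apply, Finsupp.linearCombination_single, one_smul, LinearMap.sub_apply,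
      LinearMap.id_apply, LinearMap.comp_apply, Finsupp.linearCombination_single, one_smul]
    exact hs₁ x
  have hd2 : ∀ x : T.X₂, zl T.d₁ (T.d₂ x) = 0 := by
    intro x
    have h3 := T.d_d (single x 1)
    rwa [zl_eq T.d₂, Finsupp.linearCombination_single, one_smul] at h3
  have hd1 : ∀ x : T.X₁, zw T.ε (T.d₁ x) = 0 := by
    intro x
    have h3 := T.ε_d (single x 1)
    rwa [zl_eq T.d₁, Finsupp.linearCombination_single, one_smul] at h3
  refine ⟨c₀, s₀, s₁, hc₀, ?_, ?_, ?_, ?_, ?_⟩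
  · intro y hy
    rw [(h E T.X₀ T.X₁ T.X₀ s₀ T.d₁ (fun _ => 0) fun _ => 0).1]
    have h3 : (fun x => zl T.d₁ (s₀ x)) = fun x => single x (1 : ℤ) - T.ε x • c₀ :=
      funext hs₀
    rw [h3, bm_sub, bm_wt, hy, zero_smul, sub_zero]
    exact (h E T.X₀ T.X₁ T.X₀ s₀ T.d₁ (fun _ => 0) fun _ => 0).2.1 y
  · intro z hz
    rw [(h E T.X₁ T.X₂ T.X₁ s₁ T.d₂ (fun _ => 0) fun _ => 0).1]
    have h3 : (fun x => zl T.d₂ (s₁ x)) = fun x => single x (1 : ℤ) - zl s₀ (T.d₁ x) :=
      funext hs₁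
    rw [h3, bm_sub, ← (h E T.X₁ T.X₀ T.X₁ T.d₁ s₀ (fun _ => 0) fun _ => 0).1, hz, map_zero,
      sub_zero]
    exact (h E T.X₁ T.X₂ T.X₁ s₁ T.d₂ (fun _ => 0) fun _ => 0).2.1 z
  · intro x
    have h3 : zl T.d₂ (zl s₁ (T.d₂ x) - single x 1) = 0 := by
      rw [zl_eq T.d₂, map_sub, ← zl_eq, h2, hd2, Finsupp.linearCombination_single, one_smul]
      simp [zl]
    exact sub_eq_zero.1 (T.inj _ h3)
  · intro w
    rw [(h E T.X₂ T.X₁ T.X₀ T.d₂ T.d₁ (fun _ => 0) fun _ => 0).1]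
    have h3 : (fun x => zl T.d₁ (T.d₂ x)) = fun _ => 0 := funext hd2
    rw [h3, bm_zero]
  · intro z
    rw [(h E T.X₁ T.X₀ T.X₁ T.d₁ s₀ T.ε fun _ => 0).2.2.1]
    have h3 : (fun x => zw T.ε (T.d₁ x)) = fun _ => 0 := funext hd1
    rw [h3, wt_zero]

end Pool.Agent.WaldX
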