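import Pool.Agent.Lib.MP_8f66f0_al_WaldX.SpecY

/-! Condition (C1) for extensions by groups of cohomological dimension at most two. -/

set_option autoImplicit false

namespace Pool.Agent.WaldX

open Pool.Agent.Wald Pool.Agent.WaldT Pool.Agent.WaldTL Pool.Agent.Ind Finsupp

private theorem ext_kerFG (S : Type) [Ring S] [IsNoetherianRing S] : KerFG S := by
  intro a b h
  exact IsNoetherian.noetherian _

theorem ext (h : ∀ (LL : Type) [CommRing LL], S_C1X LL) (h1 : S_FrX) : S_Ext := by
  intro LL E Q _ _ _ π hQ hN
  obtain ⟨T, hT0, hT1, hT2⟩ := h1 Q hQ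
  have s0 : ∀ x : (T.infl π).X₀, MulAction.stabilizer E x = π.ker := by
    intro x
    ext g
    rw [MulAction.mem_stabilizer_iff, MonoidHom.mem_ker]
    constructor
    · intro hg
      exact hT0 x (π g) hg
    · intro hg
      show π g • (show T.X₀ from x) = x
      rw [hg, one_smul]
  have s1 : ∀ x : (T.infl π).X₁, MulAction.stabilizer E x = π.ker := by
    intro x
    ext g
    rw [MulAction.mem_stabilizer_iff, MonoidHom.mem_ker]
    constructor
    · intro hg
      exact hT1 x (π g) hg
    · intro hg
      show π g • (show T.X₁ from x) = x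
      rw [hg, one_smul]
  have s2 : ∀ x : (T.infl π).X₂, MulAction.stabilizer E x = π.ker := by
    intro x
    ext g
    rw [MulAction.mem_stabilizer_iff, MonoidHom.mem_ker]
    constructor
    · intro hg
      exact hT2 x (π g) hg
    · intro hg
      show π g • (show T.X₂ from x) = x
      rw [hg, one_smul]
  refine h LL E (T.infl π) ?_ ?_ ?_
  · intro x
    rw [s0 x]
    exact ext_kerFG _
  · intro x
    rw [s1 x]
    exact ext_kerFG _
  · intro x
    rw [s2 x]
    exact hN

end Pool.Agent.WaldX
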