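import Pool.Agent.Lib.MP_8f66f0_al_WaldX.SpecY

/-! A free resolution of length two. -/

set_option autoImplicit false

namespace Pool.Agent.WaldX

open CategoryTheory Pool.Agent.Wald Pool.Agent.WaldT Pool.Agent.WaldTL Pool.Agent.Ind Finsupp

private theorem Fre_sh {R : Type} [Ring R] {P M : Type} [AddCommGroup P] [Module R P]
    [AddCommGroup M] [Module R M] [Module.Projective R P] (f : P →ₗ[R] M)
    (hf : Function.Surjective f) (n : ℕ)
    (hM : HasProjectiveDimensionLT (ModuleCat.of R M) (n + 2)) :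
    HasProjectiveDimensionLT (ModuleCat.of R (LinearMap.ker f)) (n + 1) := by
  have h1 := LinearMap.shortExact_shortComplexKer hf
  have hP : Projective (ModuleCat.of R P) := (IsProjective.iff_projective P).mp inferInstance
  have h2 : HasProjectiveDimensionLT (ModuleCat.of R P) (n + 1) :=
    hasProjectiveDimensionLT_of_ge _ 1 _ (by omega)
  exact h1.hasProjectiveDimensionLT_X₁ (n + 1) h2 hM

private theorem Fre_lc {R : Type} [Ring R] (M : Type) [AddCommGroup M] [Module R M] :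
    Function.Surjective (Finsupp.linearCombination R (id : M → M)) := fun m =>
  ⟨Finsupp.single m 1, by simp⟩

/-- the general form: from a surjection of a projective module to a module of projective dimension
at most two -/
private theorem Fre_gen (h : S_Swi) {R P M : Type} [Ring R] [AddCommGroup P] [Module R P]
    [AddCommGroup M] [Module R M] [Module.Projective R P] (ε : P →ₗ[R] M)
    (hε : Function.Surjective ε) (hM : HasProjectiveDimensionLE (ModuleCat.of R M) 2) :
    ∃ (B₁ B₂ : Type) (D₁ : (B₁ →₀ R) →ₗ[R] P) (D₂ : (B₂ →₀ R) →ₗ[R] (B₁ →₀ R)),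
      Function.Injective D₂ ∧ Function.Exact D₂ D₁ ∧
      ∀ z : P, z ∈ LinearMap.range D₁ ↔ ε z = 0 := by
  obtain ⟨K₀, hK₀⟩ : ∃ K₀ : Submodule R P, K₀ = LinearMap.ker ε := ⟨_, rfl⟩
  have h1 : HasProjectiveDimensionLT (ModuleCat.of R K₀) 2 := by
    rw [hK₀]
    exact Fre_sh ε hε 1 hM
  obtain ⟨π, hπe⟩ : ∃ π : (K₀ →₀ R) →ₗ[R] K₀,
      π = Finsupp.linearCombination R (id : K₀ → K₀) := ⟨_, rfl⟩
  have hπ : Function.Surjective π := by
    rw [hπe]
    exact Fre_lc K₀
  have h2 : HasProjectiveDimensionLT (ModuleCat.of R (LinearMap.ker π)) 1 := Fre_sh π hπ 0 h1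
  have h3 : Module.Projective R (LinearMap.ker π) :=
    (IsProjective.iff_projective _).mpr (projective_iff_hasProjectiveDimensionLT_one.mpr h2)
  obtain ⟨B, ⟨φ⟩⟩ := h R (LinearMap.ker π)
  let e : ((K₀ ⊕ B) →₀ R) ≃ₗ[R] (K₀ →₀ R) × (B →₀ R) := Finsupp.sumFinsuppLEquivProdFinsupp R
  let D₁ : ((K₀ ⊕ B) →₀ R) →ₗ[R] P :=
    K₀.subtype ∘ₗ π ∘ₗ (LinearMap.fst R (K₀ →₀ R) (B →₀ R)) ∘ₗ e.toLinearMap
  let D₂ : (B →₀ R) →ₗ[R] ((K₀ ⊕ B) →₀ R) :=
    e.symm.toLinearMap ∘ₗ (LinearMap.prodMap (LinearMap.ker π).subtype LinearMap.id) ∘ₗ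
      φ.symm.toLinearMap
  have hD₁ : ∀ y, D₁ y = ((π (e y).1 : K₀) : P) := fun y => rfl
  have hD₂ : ∀ y, D₂ y = e.symm (((φ.symm y).1 : K₀ →₀ R), (φ.symm y).2) := fun y => rfl
  refine ⟨K₀ ⊕ B, B, D₁, D₂, ?_, ?_, ?_⟩
  · intro x y hxy
    rw [hD₂, hD₂] at hxy
    have e1 := e.symm.injective hxy
    rw [Prod.mk.injEq] at e1
    have e2 : φ.symm x = φ.symm y := Prod.ext (Subtype.ext e1.1) e1.2
    exact φ.symm.injective e2
  · intro y
    constructor
    · intro hy
      rw [hD₁] at hy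
      have hy' : π (e y).1 = 0 := Subtype.ext hy
      refine ⟨φ (⟨(e y).1, hy'⟩, (e y).2), ?_⟩
      rw [hD₂, φ.symm_apply_apply, e.symm_apply_eq]
    · rintro ⟨z, rfl⟩
      rw [hD₁, hD₂, e.apply_symm_apply]
      show ((π ((φ.symm z).1 : K₀ →₀ R) : K₀) : P) = 0
      rw [show π ((φ.symm z).1 : K₀ →₀ R) = 0 from (φ.symm z).1.2]
      rfl
  · intro z
    constructor
    · rintro ⟨y, rfl⟩
      rw [hD₁]
      have : ((π (e y).1 : K₀) : P) ∈ LinearMap.ker ε := by
        rw [← hK₀]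
        exact (π (e y).1).2
      exact this
    · intro hz
      have hz' : z ∈ K₀ := by
        rw [hK₀]
        exact hz
      obtain ⟨w, hw⟩ := hπ ⟨z, hz'⟩
      refine ⟨e.symm (w, 0), ?_⟩
      rw [hD₁, e.apply_symm_apply]
      show ((π w : K₀) : P) = z
      rw [hw]

private theorem Fre_sum_add {Q : Type} [Group Q] (r r' : MonoidAlgebra ℤ Q) :
    (r + r').coeff.sum (fun _ n => n) = r.coeff.sum (fun _ n => n) +
      r'.coeff.sum (fun _ n => n) := by
  rw [MonoidAlgebra.coeff_add]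
  exact Finsupp.sum_add_index' (fun _ => rfl) (fun _ _ _ => rfl)

private theorem Fre_alg {Q : Type} [Group Q] (r : MonoidAlgebra ℤ Q) (a : ℤ) :
    (Representation.trivial ℤ Q ℤ).asAlgebraHom r a = r.coeff.sum (fun _ n => n) * a := by
  induction r using MonoidAlgebra.induction_linear with
  | zero =>
    rw [map_zero, LinearMap.zero_apply, MonoidAlgebra.coeff_zero,
      (Finsupp.sum_zero_index (h := fun _ n => n)), zero_mul]
  | add f g hf hg => rw [map_add, LinearMap.add_apply, hf, hg, Fre_sum_add, add_mul]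
  | single q n =>
    rw [Representation.asAlgebraHom_single, MonoidAlgebra.coeff_single,
      (Finsupp.sum_single_index (h := fun _ n => n) rfl)]
    rfl

theorem fre (h : S_Swi) : S_Fre := by
  intro Q _ hQ
  let ρ := Representation.trivial ℤ Q ℤ
  let m₁ : ρ.asModule := ρ.asModuleEquiv.symm 1
  let ε : (Unit →₀ MonoidAlgebra ℤ Q) →ₗ[MonoidAlgebra ℤ Q] ρ.asModule :=
    (LinearMap.toSpanSingleton (MonoidAlgebra ℤ Q) ρ.asModule m₁) ∘ₗ (Finsupp.lapply ())
  have hεv : ∀ z, ρ.asModuleEquiv (ε z) = (z ()).coeff.sum (fun _ n => n) := by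
    intro z
    have e1 : ε z = (z ()) • m₁ := rfl
    rw [e1, Representation.asModuleEquiv_map_smul, ρ.asModuleEquiv.apply_symm_apply, Fre_alg,
      mul_one]
  have hε0 : ∀ z, ε z = 0 ↔ (z ()).coeff.sum (fun _ n => n) = 0 := by
    intro z
    rw [← hεv]
    constructor
    · intro h'
      rw [h', map_zero]
    · intro h'
      exact ρ.asModuleEquiv.injective (h'.trans (map_zero _).symm)
  have hεs : Function.Surjective ε := by
    intro m
    refine ⟨Finsupp.single () (MonoidAlgebra.single 1 (ρ.asModuleEquiv m)), ?_⟩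
    apply ρ.asModuleEquiv.injective
    rw [hεv, Finsupp.single_eq_same, MonoidAlgebra.coeff_single,
      (Finsupp.sum_single_index (h := fun _ n => n) rfl)]
  obtain ⟨B₁, B₂, D₁, D₂, k1, k2, k3⟩ := Fre_gen h ε hεs hQ
  exact ⟨B₁, B₂, D₁, D₂, k1, k2, fun z => (k3 z).trans (hε0 z)⟩

end Pool.Agent.WaldX
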