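import Pool.Agent.Lib.MP_8f66f0_al_WaldX.Defs

/-! Statements with complete proofs: condition (C1) for group rings `R = LL[E]`, if `E` has a
permutation resolution of length two such that the group rings of the stabilizers are coherent
(degrees 0 and 1) and noetherian (degree 2).

Conventions: left modules, elements are rows, matrices act on the right. `dx`, `tw`, `S_DxA` (A1),
`S_DxSl` (A2), `S_Tw` (A3), `S_RelOne` (A4), `S_Rel` (A5) are in WaldTL/Defs.lean and proved (theorems
`dxA LL`, `dxSl LL`, `tw_props LL ..`, `rel LL ..`, see WaldTL/Tree.lean); they may be imported. -/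

set_option autoImplicit false

namespace Pool.Agent.WaldX

open Pool.Agent.Wald Pool.Agent.WaldT Pool.Agent.WaldTL Finsupp

variable (LL : Type) [CommRing LL]

/-- X1 (Sl). Slices. 
PROOF. `sl` is additive in `z` (`Finsupp.sum_add_index'`, `filter_add`). (2) `sl (single x' r) y` is
`r` restricted to the `g` with `g x' = y`; for `r = single g a`: `single g a` if `g x' = y`, else 0. So
for `dx x (single g a) = single (g⁻¹ x) (single g a)` it is `single g a` if `x = y` and `0` otherwise;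
additivity. (3) by induction on `z` (`Finsupp.induction_linear`; for `single x' r` by induction on
`r`: `single x' (single g a) = dx (g x') (single g a)`, `S = {g x'}`); for sums take the union of the
`S`. (4) additivity, then `z = single x' (single h b)`: `single g a • z = single x' (single (g h)
(a b))`, and `g h x' = g x ↔ h x' = x`. (5) `g x' = x` is false for all `x'` in the support. -/
def S_Sl : Prop :=
  ∀ (E X : Type) [Group E] [MulAction E X],
    (∀ (z z' : X →₀ MonoidAlgebra LL E) (x : X), sl (z + z') x = sl z x + sl z' x) ∧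
    (∀ (x y : X) (r : MonoidAlgebra LL E), (x = y → sl (dx x r) y = r) ∧
      (x ≠ y → sl (dx x r) y = 0)) ∧
    (∀ z : X →₀ MonoidAlgebra LL E, ∃ S : Finset X, (∀ x, x ∉ S → sl z x = 0) ∧
      ∀ S', S ⊆ S' → z = ∑ x ∈ S', dx x (sl z x)) ∧
    (∀ (g : E) (a : LL) (z : X →₀ MonoidAlgebra LL E) (x : X),
      sl ((MonoidAlgebra.single g a : MonoidAlgebra LL E) • z) (g • x) =
        MonoidAlgebra.single g a * sl z x) ∧
    (∀ (z : X →₀ MonoidAlgebra LL E) (x : X), (∀ (g : E), z (g • x) = 0) → sl z x = 0)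

/-- X2 (Bm). Properties of `bm` and `wt`.
PROOF. (1)-(3): both sides are linear in `z`, so take `z = single x 1` (`Finsupp.lhom_ext'`), and
compute with `Finsupp.linearCombination_single`, `mapRange`, sums over `d x`. (4) additivity in `r`
(A1 (3)), then `r = single g a`: `dx x r = single (g⁻¹ x) (single g a)`, so the left side is
`single g a • (d (g⁻¹ x) with coefficients in R)`, and by equivariance `d (g⁻¹ x) = g⁻¹ (d x)`, so it is
the sum over `y` of `(d x) y • single (g⁻¹ y) (single g a) = (d x) y • dx y (single g a)`. (5) the same.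
(6) `tw` is a sum over `a` of linear maps; enough: `z a = single x r` for one `a` and `0` otherwise,
where the left side is `r • ∑ y, (d x) y • dx y (h a b)` and the right side is `r • bm d (dx x (h a
b))`; use (4). -/
def S_Bm : Prop :=
  ∀ (E X Y Z : Type) [Group E] [MulAction E X] [MulAction E Y] (d : X → (Y →₀ ℤ))
    (d' : Y → (Z →₀ ℤ)) (ε : Y → ℤ) (ε' : X → ℤ),
    (∀ z : X →₀ MonoidAlgebra LL E, bm LL d' (bm LL d z) = bm LL (fun x => zl d' (d x)) z) ∧
    (∀ z : X →₀ MonoidAlgebra LL E, bm LL (fun x => single x (1 : ℤ)) z = z) ∧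
    (∀ z : X →₀ MonoidAlgebra LL E, wt LL ε (bm LL d z) = wt LL (fun x => zw ε (d x)) z) ∧
    ((∀ (g : E) (x : X), d (g • x) = (d x).mapDomain fun y => g • y) →
      ∀ (x : X) (r : MonoidAlgebra LL E), bm LL d (dx x r) = (d x).sum fun y n => n • dx y r) ∧
    ((∀ (g : E) (x : X), ε' (g • x) = ε' x) →
      ∀ (x : X) (r : MonoidAlgebra LL E), wt LL ε' (dx x r) = ε' x • r) ∧
    ((∀ (g : E) (x : X), d (g • x) = (d x).mapDomain fun y => g • y) →
      ∀ (A B : Type) [Fintype A] [Fintype B] (h : A → B → MonoidAlgebra LL E)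
        (z : A → (X →₀ MonoidAlgebra LL E)) (b : B),
        tw h (fun a => bm LL d (z a)) b = bm LL d (tw h z b))

/-- X3 (Con). A contraction of the complex.
PROOF. `c₀` from `surj`. For `x : X₀`: `single x 1 - ε x • c₀` has weight 0, so it is `zl d₁ (s₀ x)`
(`ex₀`). For `x : X₁`: `single x 1 - zl s₀ (d₁ x)` is in the kernel of `zl d₁` (`zl d₁ (zl s₀ (d₁ x))
= d₁ x - (zw ε (d₁ x)) • c₀ = d₁ x`), so it is `zl d₂ (s₁ x)` (`ex₁`). Then `zl s₁ (d₂ x) = single x
1`: by `inj`, `zl d₂ (zl s₁ (d₂ x)) = d₂ x - zl s₀ (zl d₁ (d₂ x)) = d₂ x`. Over `R`: use S_Bm (1), (2) and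
additivity of `bm` in `d` (prove `bm LL (fun x => d x + d' x) = bm LL d + bm LL d'` and for `-`, `•`).
`bm d₁ (bm s₀ y) = y - (wt ε y) • c₀` (with coefficients in `R`), `bm d₂ (bm s₁ z) = z - bm s₀ (bm d₁
z)`. The last two from (1), (3) and `zl d₁ (d₂ x) = 0` (`d_d` for `single x 1`), `zw ε (d₁ x) = 0`. -/
def S_Con : Prop :=
  ∀ (E : Type) [Group E] (T : Cx E),
    ∃ (c₀ : T.X₀ →₀ ℤ) (s₀ : T.X₀ → (T.X₁ →₀ ℤ)) (s₁ : T.X₁ → (T.X₂ →₀ ℤ)),
      zw T.ε c₀ = 1 ∧
      (∀ y : T.X₀ →₀ MonoidAlgebra LL E, wt LL T.ε y = 0 → bm LL T.d₁ (bm LL s₀ y) = y) ∧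
      (∀ z : T.X₁ →₀ MonoidAlgebra LL E, bm LL T.d₁ z = 0 → bm LL T.d₂ (bm LL s₁ z) = z) ∧
      (∀ x, zl s₁ (T.d₂ x) = single x 1) ∧
      (∀ w : T.X₂ →₀ MonoidAlgebra LL E, bm LL T.d₁ (bm LL T.d₂ w) = 0) ∧
      ∀ z : T.X₁ →₀ MonoidAlgebra LL E, wt LL T.ε (bm LL T.d₁ z) = 0

/-- X4 (SlI). If the slices of the boundary are in a submodule `I`, so are the slices.
PROOF. `s₁` from `hs`. By S_Sl (3) there is a finite set `S` with `w b = ∑ x ∈ S, dx x (sl (w b) x)` for
all `b` (finite union, `S'` version), so by S_Bm (4) `bm d (w b) = ∑ x ∈ S, ∑ e, (d x) e • dx e (sl (w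
b) x)`, and by S_Sl (1), (2) `sl (bm d (w b)) e = ∑ x ∈ S, (d x) e • sl (w b) x` for every `e`. Let `U`
be the union of the supports of the `d x`, `x ∈ S`. For `x' : X`: `∑ e ∈ U, (s e) x' • sl (bm d (w
b)) e = ∑ x ∈ S, (∑ e ∈ U, (d x) e * (s e) x') • sl (w b) x = ∑ x ∈ S, (zl s (d x)) x' • sl (w b) x`,
which is `sl (w b) x'` if `x' ∈ S`, and if `x' ∉ S` the slice is `0` (choose `S` as in S_Sl (3)). As a
function of `b` the left side is in `I` (integers act through `R`). -/
def S_SlI : Prop :=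
  ∀ (E X Y : Type) [Group E] [MulAction E X] [MulAction E Y] (d : X → (Y →₀ ℤ))
    (s : Y → (X →₀ ℤ)), (∀ x, zl s (d x) = single x 1) →
    (∀ (g : E) (x : X), d (g • x) = (d x).mapDomain fun y => g • y) →
    ∀ (B : Type) [Fintype B] (I : Submodule (MonoidAlgebra LL E) (B → MonoidAlgebra LL E))
      (w : B → (X →₀ MonoidAlgebra LL E)), (∀ e, (fun b => sl (bm LL d (w b)) e) ∈ I) →
      ∀ x, (fun b => sl (w b) x) ∈ I

/-- X5 (Im1). Noetherian stabilizer, one orbit.
PROOF. `C = Stab y`, `φ = C.subtype`. Let `F'` be the set of the `x ∈ F` in the orbit of `y`, and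
choose `τ x` with `x = (τ x)⁻¹ • y`. `θ : (B × F' → LL[C]) → (B → R)`, `θ c b = ∑ x, inc φ (c (b, x)) *
single (τ x) 1` is additive and semilinear: `θ (e • c) = inc φ e • θ c`. So `θ⁻¹ I` is an
`LL[C]`-submodule of a finite free module over a noetherian ring, with generators `n q`; `v q =
θ (n q) ∈ I`. Choose representatives `D` of the left cosets of `C` in `E` (`Quotient.out`). For `x`
in `F'` and `g : E` let `d` be the representative of `g (τ x)⁻¹`, so `g = d γ (τ x)`, `γ ∈ C`, and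
`single x (single g a) = dx (g x) (single g a) = dx (d y) (single (d γ τ) a) = single d 1 • dx y
(single (γ τ) a)` (A1 (1), (4)). Summing up: `w b = ∑ d ∈ D₀, single d 1 • dx y (θ (c d) b)` with `D₀`
a finite set of representatives and `c d (b, x) ∈ LL[C]` (coefficient at `γ`: the coefficient of
`w b x` at `d γ (τ x)`). So the slice of `w b` at `d y` is `single d 1 * θ (c d) b` (S_Sl (1), (2), (4);
the points `d y` are different), so `θ (c d) ∈ I` (multiply by `single d⁻¹ 1`), `c d = ∑ q, e d q •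
n q`, `θ (c d) = ∑ q, inc φ (e d q) • v q` and `dx y (θ (c d) b) = ∑ q, inc φ (e d q) • dx y (v q b)`
(A1 (5)). `r q = ∑ d ∈ D₀, single d 1 * inc φ (e d q)`. -/
def S_Im1 : Prop :=
  ∀ (E X : Type) [Group E] [MulAction E X] (y : X),
    IsNoetherianRing (MonoidAlgebra LL (MulAction.stabilizer E y)) →
    ∀ (B : Type) [Fintype B] (I : Submodule (MonoidAlgebra LL E) (B → MonoidAlgebra LL E))
      (F : Finset X), ∃ (Q : ℕ) (v : Fin Q → B → MonoidAlgebra LL E), (∀ q, v q ∈ I) ∧
        ∀ w : B → (X →₀ MonoidAlgebra LL E),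
          (∀ b x, w b x ≠ 0 → x ∈ F ∧ ∃ g : E, x = g • y) →
          (∀ x, (fun b => sl (w b) x) ∈ I) →
          ∃ r : Fin Q → MonoidAlgebra LL E, ∀ b, w b = ∑ q, r q • dx y (v q b)

/-- X6 (Im). Noetherian stabilizers, arbitrary points.
PROOF. Let `O` be a finite set of representatives of the orbits which meet `F` (image of `F` under
`Quotient.out ∘ Quotient.mk (orbitRel E X)`). For `y ∈ O` let `w^y b` be the restriction
(`Finsupp.filter`) of `w b` to the orbit of `y`; `w b = ∑ y ∈ O, w^y b`. The slice of `w^y b` at `x` is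
the slice of `w b` at `x` if `x` is in the orbit of `y` and `0` otherwise (S_Sl (1), (5) for the
difference). Apply S_Im1 to every `y ∈ O`; index set: disjoint union of the `Fin (Q y)`, reindexed by
`Fin`. -/
def S_Im : Prop :=
  ∀ (E X : Type) [Group E] [MulAction E X],
    (∀ x : X, IsNoetherianRing (MonoidAlgebra LL (MulAction.stabilizer E x))) →
    ∀ (B : Type) [Fintype B] (I : Submodule (MonoidAlgebra LL E) (B → MonoidAlgebra LL E))
      (F : Finset X), ∃ (Q : ℕ) (x : Fin Q → X) (v : Fin Q → B → MonoidAlgebra LL E),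
        (∀ q, v q ∈ I) ∧ ∀ w : B → (X →₀ MonoidAlgebra LL E), (∀ b x, w b x ≠ 0 → x ∈ F) →
          (∀ x, (fun b => sl (w b) x) ∈ I) →
          ∃ r : Fin Q → MonoidAlgebra LL E, ∀ b, w b = ∑ q, r q • dx (x q) (v q b)

/-- X7 (Ker). Coherent stabilizers: bounded elements of the kernel of `tw h` are combinations of
finitely many `dx e κ` with `κ h = 0`. 
PROOF. This is STEP 1 in the proof of `c1T` (WaldTL/C1T.lean, extract it): by A5 (`rel LL ..`) for
the rows `m (a, e) b = h a b` and the points `x (a, e) = e`, `(a, e) ∈ A × F`, the relations are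
finitely generated by `ρ i (a, e)`, `i : Fin T`. Put `z i a = ∑ e ∈ F, single e (ρ i (a, e))`. Then
`tw h (z i) = 0`, and every `z` with supports in `F` and `tw h z = 0` is a combination of the `z i`.
By A2 (2) write `z i a = ∑ x ∈ S i, dx x (κ i x a)`; by A3 (4) `κ i x · h = 0`. The finite index set is
the set of pairs `(i, x)`, `x ∈ S i`. -/
def S_Ker : Prop :=
  ∀ (E X : Type) [Group E] [MulAction E X],
    (∀ x : X, KerFG (MonoidAlgebra LL (MulAction.stabilizer E x))) →
    ∀ (A B : Type) [Fintype A] [Fintype B] (h : A → B → MonoidAlgebra LL E) (F : Finset X),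
      ∃ (P : ℕ) (e : Fin P → X) (κ : Fin P → A → MonoidAlgebra LL E),
        (∀ p b, ∑ a, κ p a * h a b = 0) ∧
        ∀ z : A → (X →₀ MonoidAlgebra LL E), (∀ a x, z a x ≠ 0 → x ∈ F) → (∀ b, tw h z b = 0) →
          ∃ w : Fin P → MonoidAlgebra LL E, ∀ a, z a = ∑ p, w p • dx (e p) (κ p a)

/-- X8 (C1X). The main theorem.
PROOF. Given `h`, `k` with `k h = 0` (`k l` are the rows, `l : Fin s`). `c₀, s₀, s₁` from S_Con. Put
`D l a = c₀.sum fun y n => n • dx y (k l a) : X₀ →₀ R`. `wt ε (D l a) = k l a` (S_Bm (5), `zw ε c₀ = 1`)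
and `tw h (D l) = 0` (A3 (1), (2); `k h = 0`). Finite sets: `S` = union of the supports of the `D l a`;
`B₁` = union of the supports of `s₀ y`, `y ∈ S`; `S₁` = union of the supports of the `dx e (h a b)`,
`e ∈ B₁`; `B₂` = union of the supports of `s₁ e`, `e ∈ S₁`.
(a) S_Im for the action on `X₂`, `I = range of h` (the submodule of all `∑ a, u a * h a b`), `F = B₂`:
`x q`, `v q = u q · h`. (b) Let `B₁' ` = `B₁` and the supports of all `bm d₂ (dx (x q) (u q a))`; S_Ker for
`X₁`, `h`, `B₁'`: `e p`, `κ p`, `κ p h = 0`. (c) A5 for the action on `X₀` and the finite family of the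
`(y, k l)`, `y ∈ supp c₀`, and `(v, κ p)`, `v ∈ supp (d₁ (e p))`: generators `ρ i (l, y)`, `ρ' i (p, v)`
of the relations. Claim: `k' = κ`, `ρ̂ i l = ∑ y, ε y • ρ i (l, y)`, `ρ̂' i p = ∑ v, ε v • ρ' i (p, v)`
satisfy (C1). `k' h = 0` is clear, `ρ̂ k + ρ̂' k' = 0`: apply `wt ε` to the relations (S_Bm (5)).
Let `c` with `c k = 0`. `y a = ∑ l, c l • D l a` has weight `∑ l, c l * k l a = 0`, so `y a = bm d₁ (z
a)`, `z a = bm s₀ (y a)` supported in `B₁`. `bm d₁ (tw h z b) = tw h y b = 0` (S_Bm (6), A3 (2)), so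
`tw h z b = bm d₂ (w b)`, `w b = bm s₁ (tw h z b)` supported in `B₂` (`tw h z b` is supported in `S₁`).
The slices of `tw h z` are in `I`: `sl (tw h z b) e = ∑ a, sl (z a) e * h a b` (write `z a = ∑ x ∈ S,
dx x (sl (z a) x)` with one `S` for all `a` and use A3 (1), (2), S_Sl (2)). By S_SlI (with `zl s₁ (d₂ x) =
single x 1`) the slices of `w` are in `I`. By (a) `w b = ∑ q, r q • dx (x q) (v q b) = tw h w' b`,
`w' a = ∑ q, r q • dx (x q) (u q a)` (A3 (1), (2)). `z' a = z a - bm d₂ (w' a)` is supported in `B₁'`,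
`tw h z' = tw h z - bm d₂ (tw h w') = 0` (S_Bm (6)), so by (b) `z' a = ∑ p, ω p • dx (e p) (κ p a)`, and
`bm d₁ (z' a) = y a` (S_Con (5)). So by S_Bm (4)
`∑ l, ∑ y, (c l * c₀ y) • dx y (k l a) - ∑ p, ∑ v, (ω p * (d₁ (e p)) v) • dx v (κ p a) = 0` and by (c)
`c₀ y • c l = ∑ i, ζ i * ρ i (l, y)` and `- (d₁ (e p)) v • ω p = ∑ i, ζ i * ρ' i (p, v)`. Multiply by
`ε` and sum: `c l = ∑ i, ζ i * ρ̂ i l` (`zw ε c₀ = 1`) and `0 = ∑ i, ζ i * ρ̂' i p` (`zw ε (d₁ (e p)) = 0`
by `ε_d`). -/
def S_C1X : Prop :=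
  ∀ (E : Type) [Group E] (T : Cx E),
    (∀ x : T.X₀, KerFG (MonoidAlgebra LL (MulAction.stabilizer E x))) →
    (∀ x : T.X₁, KerFG (MonoidAlgebra LL (MulAction.stabilizer E x))) →
    (∀ x : T.X₂, IsNoetherianRing (MonoidAlgebra LL (MulAction.stabilizer E x))) →
    C1 (MonoidAlgebra LL E)

end Pool.Agent.WaldX
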