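import Mathlib
import Pool.Agent.Lib.MP_8f66f0_al_WaldX.Spec

/-! X6: noetherian stabilizers, arbitrary points. -/

set_option autoImplicit false

namespace Pool.Agent.WaldX

open Pool.Agent.Wald Pool.Agent.WaldT Pool.Agent.WaldTL Finsupp

theorem im (LL : Type) [CommRing LL] (h : S_Sl LL) (h1 : S_Im1 LL) : S_Im LL := by
  classical
  intro E X _ _ hN B _ I F
  obtain ⟨hadd, -, -, -, hzero⟩ := h E X
  have hex : ∀ y : X, ∃ (Q : ℕ) (v : Fin Q → B → MonoidAlgebra LL E), (∀ q, v q ∈ I) ∧
      ∀ w : B → (X →₀ MonoidAlgebra LL E),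
        (∀ b x, w b x ≠ 0 → x ∈ F ∧ ∃ g : E, x = g • y) →
        (∀ x, (fun b => sl (w b) x) ∈ I) →
        ∃ r : Fin Q → MonoidAlgebra LL E, ∀ b, w b = ∑ q, r q • dx y (v q b) :=
    fun y => h1 E X y (hN y) B I F
  choose Q v hv hw using hex
  let rep : X → X := fun x => (Quotient.mk (MulAction.orbitRel E X) x).out
  have hrep : ∀ x : X, ∃ g : E, x = g • rep x := by
    intro x
    have h2 : (MulAction.orbitRel E X) (rep x) x := Quotient.mk_out x
    obtain ⟨g, hg⟩ := MulAction.orbitRel_apply.1 ((MulAction.orbitRel E X).symm' h2)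
    exact ⟨g, hg.symm⟩
  have hrep2 : ∀ (x y : X) (g : E), x = g • y → rep x = rep y := by
    intro x y g hxy
    have h2 : Quotient.mk (MulAction.orbitRel E X) x = Quotient.mk (MulAction.orbitRel E X) y := by
      refine Quotient.sound ?_
      exact MulAction.orbitRel_apply.2 ⟨g, hxy.symm⟩
    change (Quotient.mk (MulAction.orbitRel E X) x).out =
      (Quotient.mk (MulAction.orbitRel E X) y).out
    rw [h2]
  have hrr : ∀ x, rep (rep x) = rep x := by
    intro x
    obtain ⟨g, hg⟩ := hrep x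
    exact (hrep2 x (rep x) g hg).symm
  let O : Finset X := F.image rep
  have hO : ∀ y ∈ O, rep y = y := by
    intro y hy
    obtain ⟨x, -, rfl⟩ := Finset.mem_image.1 hy
    exact hrr x
  -- index set
  obtain ⟨ε⟩ : Nonempty ((Σ y : {y // y ∈ O}, Fin (Q y.1)) ≃
      Fin (Fintype.card (Σ y : {y // y ∈ O}, Fin (Q y.1)))) := ⟨Fintype.equivFin _⟩
  refine ⟨Fintype.card (Σ y : {y // y ∈ O}, Fin (Q y.1)), fun q => (ε.symm q).1.1,
    fun q => v (ε.symm q).1.1 (ε.symm q).2, fun q => hv _ _, ?_⟩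
  intro w hwF hwI
  let Pr : X → X → Prop := fun y x => ∃ g : E, x = g • y
  let wy : X → B → (X →₀ MonoidAlgebra LL E) := fun y b => (w b).filter (Pr y)
  have hpos : ∀ y b x, (∃ g : E, x = g • y) → wy y b x = w b x := fun y b x hx =>
    Finsupp.filter_apply_pos (Pr y) (w b) hx
  have hneg : ∀ y b x, (¬ ∃ g : E, x = g • y) → wy y b x = 0 := fun y b x hx =>
    Finsupp.filter_apply_neg (Pr y) (w b) hx
  have hwy1 : ∀ y b x, wy y b x ≠ 0 → x ∈ F ∧ ∃ g : E, x = g • y := by
    intro y b x hx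
    by_cases h2 : ∃ g : E, x = g • y
    · refine ⟨?_, h2⟩
      rw [hpos y b x h2] at hx
      exact hwF b x hx
    · exact absurd (hneg y b x h2) hx
  have hwy2 : ∀ y x, (fun b => sl (wy y b) x) ∈ I := by
    intro y x
    by_cases h2 : ∃ g : E, x = g • y
    · have h3 : (fun b => sl (wy y b) x) = fun b => sl (w b) x := by
        funext b
        have h4 := hadd (wy y b) (w b - wy y b) x
        rw [add_sub_cancel] at h4
        have h6 : sl (w b - wy y b) x = 0 := by
          refine hzero _ x fun g => ?_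
          obtain ⟨g', rfl⟩ := h2
          rw [Finsupp.sub_apply, hpos y b _ ⟨g * g', (mul_smul g g' y).symm⟩, sub_self]
        rw [h6, add_zero] at h4
        exact h4.symm
      rw [h3]
      exact hwI x
    · have h3 : (fun b => sl (wy y b) x) = 0 := by
        funext b
        refine hzero _ x fun g => ?_
        refine hneg y b _ ?_
        rintro ⟨g', hg'⟩
        exact h2 ⟨g⁻¹ * g', by rw [mul_smul, ← hg', inv_smul_smul]⟩
      rw [h3]
      exact I.zero_mem
  choose r hr using fun y => hw y (wy y) (hwy1 y) (hwy2 y)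
  refine ⟨fun q => r (ε.symm q).1.1 (ε.symm q).2, fun b => ?_⟩
  rw [Equiv.sum_comp ε.symm (fun q => r q.1.1 q.2 • dx q.1.1 (v q.1.1 q.2 b)), Fintype.sum_sigma]
  have h2 : w b = ∑ y ∈ O, wy y b := by
    ext1 x
    rw [Finsupp.finsetSum_apply]
    by_cases hx : w b x = 0
    · rw [hx]
      refine (Finset.sum_eq_zero fun y _ => ?_).symm
      by_cases h4 : ∃ g : E, x = g • y
      · exact (hpos y b x h4).trans hx
      · exact hneg y b x h4
    · have hxF := hwF b x hx
      rw [Finset.sum_eq_single_of_mem (rep x) (Finset.mem_image.2 ⟨x, hxF, rfl⟩)]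
      · exact (hpos (rep x) b x (hrep x)).symm
      · intro y hy hne
        refine hneg y b x ?_
        rintro ⟨g, hg⟩
        exact hne ((hO y hy).symm.trans (hrep2 x y g hg).symm)
  rw [h2, ← Finset.sum_coe_sort O (fun y => wy y b)]
  exact Finset.sum_congr rfl fun y _ => hr y.1 b

end Pool.Agent.WaldX
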