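import Pool.Agent.Lib.MP_8f66f0_al_WaldX.Spec
import Pool.Agent.Lib.MP_8f66f0_al_WaldTL.DxA
import Pool.Agent.Lib.MP_8f66f0_al_WaldL.Supp

/-!
# WaldX, module Im1: noetherian stabilizer, one orbit
-/

set_option autoImplicit false

namespace Pool.Agent.WaldX

open Pool.Agent.WaldT Pool.Agent.WaldTL Finsupp
open Pool.Agent.WaldL (inc SuppIn rs rs_supp suppIn_range rs_eq_self coeff_rs coeff_rs_mem
  coeff_rs_notMem)

namespace Im1Aux

variable {LL E X : Type} [CommRing LL] [Group E] [MulAction E X]

theorem sl_coeff (z : X →₀ MonoidAlgebra LL E) (x : X) (g : E) :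
    (sl z x).coeff g = (z (g⁻¹ • x)).coeff g := by
  classical
  unfold sl Finsupp.sum
  rw [MonoidAlgebra.coeff_sum, Finsupp.finsetSum_apply]
  have h1 : ∀ x' ∈ z.support, (MonoidAlgebra.ofCoeff ((z x').coeff.filter fun g => g • x' = x) :
      MonoidAlgebra LL E).coeff g = if g⁻¹ • x = x' then (z x').coeff g else 0 := by
    intro x' _
    change ((z x').coeff.filter fun g => g • x' = x) g = _
    rw [Finsupp.filter_apply]
    by_cases h : g • x' = x
    · rw [if_pos h, if_pos]
      rw [← h, inv_smul_smul]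
    · rw [if_neg h, if_neg]
      intro h2
      exact h (by rw [← h2, smul_inv_smul])
  rw [Finset.sum_congr rfl h1, Finset.sum_ite_eq]
  split_ifs with h
  · rfl
  · rw [Finsupp.notMem_support_iff.1 h]
    rfl

theorem unit_mul (g : E) : (MonoidAlgebra.single g⁻¹ (1 : LL) : MonoidAlgebra LL E) *
    MonoidAlgebra.single g 1 = 1 := by
  rw [MonoidAlgebra.single_mul_single, inv_mul_cancel, one_mul, MonoidAlgebra.one_def]

theorem mul_unit (g : E) : (MonoidAlgebra.single g (1 : LL) : MonoidAlgebra LL E) *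
    MonoidAlgebra.single g⁻¹ 1 = 1 := by
  rw [MonoidAlgebra.single_mul_single, mul_inv_cancel, one_mul, MonoidAlgebra.one_def]

/-- An element of the group ring with support in the union of the cosets `C τ` is a combination of
the `τ`. -/
theorem decomp (y : X) (T : Type) [Fintype T] (pt : T → X) (hpt : Function.Injective pt)
    (τ : T → E) (hτ : ∀ t, (τ t)⁻¹ • y = pt t) (u : MonoidAlgebra LL E)
    (hu : ∀ g : E, u.coeff g ≠ 0 → ∃ t, g⁻¹ • y = pt t) :
    ∃ c : T → MonoidAlgebra LL (MulAction.stabilizer E y),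
      u = ∑ t, inc (MulAction.stabilizer E y).subtype (c t) * MonoidAlgebra.single (τ t) 1 := by
  classical
  have hφ : Function.Injective (MulAction.stabilizer E y).subtype :=
    Subgroup.subtype_injective _
  have hc : ∀ t : T, ∃ c : MonoidAlgebra LL (MulAction.stabilizer E y),
      inc (MulAction.stabilizer E y).subtype c =
        rs {g : E | g⁻¹ • y = pt t} u * MonoidAlgebra.single (τ t)⁻¹ (1 : LL) := by
    intro t
    rw [← suppIn_range _ hφ]
    refine (rs_supp {g : E | g⁻¹ • y = pt t} u).mul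
      (SuppIn.single (S := {(τ t)⁻¹}) rfl 1) ?_
    rintro g hg _ rfl
    rw [Subgroup.range_subtype]
    change (g * (τ t)⁻¹) • y = y
    have hg' : g⁻¹ • y = pt t := hg
    rw [mul_smul, hτ t, ← hg', smul_inv_smul]
  choose c hc using hc
  refine ⟨c, ?_⟩
  have h1 : ∀ t, inc (MulAction.stabilizer E y).subtype (c t) * MonoidAlgebra.single (τ t) 1 =
      rs {g : E | g⁻¹ • y = pt t} u := by
    intro t
    rw [hc t, mul_assoc, unit_mul, mul_one]
  rw [Finset.sum_congr rfl fun t _ => h1 t]
  ext g
  rw [MonoidAlgebra.coeff_sum, Finsupp.finsetSum_apply]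
  by_cases hg : ∃ t, g⁻¹ • y = pt t
  · obtain ⟨t, ht⟩ := hg
    rw [Finset.sum_eq_single t]
    · exact (coeff_rs_mem (S := {g : E | g⁻¹ • y = pt t}) u ht).symm
    · intro t' _ ht'
      refine coeff_rs_notMem (S := {g : E | g⁻¹ • y = pt t'}) u fun h => ?_
      have h' : g⁻¹ • y = pt t' := h
      exact ht' (hpt (h'.symm.trans ht))
    · intro h
      exact absurd (Finset.mem_univ t) h
  · rw [Finset.sum_eq_zero]
    · by_contra h
      exact hg (hu g h)
    · intro t _
      exact coeff_rs_notMem (S := {g : E | g⁻¹ • y = pt t}) u fun h => hg ⟨t, h⟩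

/-- Finitely many generators of the elements of a noetherian module with image in a submodule. -/
theorem gen {A R M V : Type} [Ring A] [Ring R] [AddCommGroup M] [Module A M] [AddCommGroup V]
    [Module R V] [IsNoetherian A M] (f : A →+* R) (θ : M →+ V)
    (hθ : ∀ (e : A) (c : M), θ (e • c) = f e • θ c) (I : Submodule R V) :
    ∃ (Q : ℕ) (v : Fin Q → V), (∀ q, v q ∈ I) ∧
      ∀ c, θ c ∈ I → ∃ e : Fin Q → A, θ c = ∑ q, f (e q) • v q := by
  let N : Submodule A M :=
    { carrier := {c | θ c ∈ I}
      zero_mem' := by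
        change θ 0 ∈ I
        rw [map_zero]
        exact I.zero_mem
      add_mem' := fun {a b} (ha : θ a ∈ I) (hb : θ b ∈ I) => by
        change θ (a + b) ∈ I
        rw [map_add]
        exact I.add_mem ha hb
      smul_mem' := fun e c (hc : θ c ∈ I) => by
        change θ (e • c) ∈ I
        rw [hθ]
        exact I.smul_mem _ hc }
  have hfg : N.FG := IsNoetherian.noetherian N
  obtain ⟨Q, n, hn⟩ := Submodule.fg_iff_exists_fin_generating_family.1 hfg
  refine ⟨Q, fun q => θ (n q), fun q => ?_, fun c hc => ?_⟩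
  · have h1 : n q ∈ N := by
      rw [← hn]
      exact Submodule.subset_span ⟨q, rfl⟩
    exact h1
  · have hcN : c ∈ N := hc
    rw [← hn, Submodule.mem_span_range_iff_exists_fun] at hcN
    obtain ⟨e, he⟩ := hcN
    refine ⟨e, ?_⟩
    rw [← he, map_sum]
    exact Finset.sum_congr rfl fun q _ => hθ _ _

end Im1Aux

open Im1Aux

theorem im1 (LL : Type) [CommRing LL] (h : S_Sl LL) : S_Im1 LL := by
  classical
  intro E X _ _ y hN B _ I F
  obtain ⟨-, -, hS3, hS4, hS5⟩ := h E X
  obtain ⟨dx1, dx2, dx3, dx4, dx5, -, -⟩ := dxA LL E X X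
  -- the points
  let T : Type := {x : X // x ∈ F ∧ ∃ g : E, x = g • y}
  have hTfin : Finite T := Finite.of_injective (fun t : T => (⟨t.1, t.2.1⟩ : F)) (by
    intro a b hab
    exact Subtype.ext (congrArg (fun z : F => z.1) hab))
  let hTf : Fintype T := Fintype.ofFinite T
  have hτ : ∀ t : T, ∃ g : E, g⁻¹ • y = t.1 := by
    rintro ⟨x, -, g, rfl⟩
    exact ⟨g⁻¹, by rw [inv_inv]⟩
  choose τ hτ using hτ
  -- the map `θ`
  let φ := (MulAction.stabilizer E y).subtype
  let θ : (B × T → MonoidAlgebra LL (MulAction.stabilizer E y)) →+ (B → MonoidAlgebra LL E) :=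
    { toFun := fun c b => ∑ t, inc φ (c (b, t)) * MonoidAlgebra.single (τ t) 1
      map_zero' := by
        funext b
        simp only [Pi.zero_apply, map_zero, zero_mul, Finset.sum_const_zero]
      map_add' := fun c c' => by
        funext b
        simp only [Pi.add_apply, map_add, add_mul, Finset.sum_add_distrib] }
  have hθ1 : ∀ c b, θ c b = ∑ t, inc φ (c (b, t)) * MonoidAlgebra.single (τ t) 1 :=
    fun _ _ => rfl
  obtain ⟨Q, v, hv, hgen⟩ := gen (inc φ) θ (fun e c => by
    funext b
    rw [hθ1, Pi.smul_apply, hθ1, smul_eq_mul, Finset.mul_sum]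
    refine Finset.sum_congr rfl fun t _ => ?_
    rw [Pi.smul_apply, smul_eq_mul, map_mul, mul_assoc]) I
  refine ⟨Q, v, hv, fun w hw hI => ?_⟩
  let DX : MonoidAlgebra LL E →+ (X →₀ MonoidAlgebra LL E) :=
    { toFun := fun r => dx y r
      map_zero' := dx2 y
      map_add' := dx3 y }
  -- one slice
  have hone : ∀ x : X, ∃ r : Fin Q → MonoidAlgebra LL E,
      ∀ b, dx x (sl (w b) x) = ∑ q, r q • dx y (v q b) := by
    intro x
    by_cases hx : ∃ d : E, x = d • y
    · obtain ⟨d, rfl⟩ := hx
      let u : B → MonoidAlgebra LL E := fun b => MonoidAlgebra.single d⁻¹ 1 * sl (w b) (d • y)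
      have hu1 : ∀ b, MonoidAlgebra.single d (1 : LL) * u b = sl (w b) (d • y) := by
        intro b
        change MonoidAlgebra.single d (1 : LL) *
          (MonoidAlgebra.single d⁻¹ 1 * sl (w b) (d • y)) = _
        rw [← mul_assoc, mul_unit, one_mul]
      have hu2 : ∀ b (g : E), (u b).coeff g ≠ 0 → ∃ t : T, g⁻¹ • y = t.1 := by
        intro b g hg
        have h1 : (u b).coeff g = (w b (g⁻¹ • y)).coeff (d * g) := by
          change (MonoidAlgebra.single d⁻¹ (1 : LL) * sl (w b) (d • y)).coeff g = _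
          rw [MonoidAlgebra.coeff_single_mul_apply, one_mul, inv_inv, sl_coeff, mul_inv_rev,
            mul_smul, inv_smul_smul]
        rw [h1] at hg
        have h2 : w b (g⁻¹ • y) ≠ 0 := by
          intro h3
          rw [h3] at hg
          exact hg rfl
        exact ⟨⟨g⁻¹ • y, hw b _ h2⟩, rfl⟩
      choose c hc using fun b => decomp y T (fun t => t.1) Subtype.val_injective τ hτ (u b) (hu2 b)
      have hθc : θ (fun p => c p.1 p.2) = u := by
        funext b
        exact (hc b).symm
      have huI : u ∈ I := by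
        have h1 : u = (MonoidAlgebra.single d⁻¹ (1 : LL) : MonoidAlgebra LL E) •
            fun b => sl (w b) (d • y) := rfl
        rw [h1]
        exact I.smul_mem _ (hI _)
      obtain ⟨e, he⟩ := hgen (fun p => c p.1 p.2) (by
        rw [hθc]
        exact huI)
      refine ⟨fun q => MonoidAlgebra.single d 1 * inc φ (e q), fun b => ?_⟩
      have h2 : u b = ∑ q, inc φ (e q) * v q b := by
        rw [← hθc, he, Finset.sum_apply]
        exact Finset.sum_congr rfl fun q _ => rfl
      have h3 : dx y (u b) = ∑ q, inc φ (e q) • dx y (v q b) := by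
        rw [h2]
        change DX (∑ q, inc φ (e q) * v q b) = _
        rw [map_sum]
        exact Finset.sum_congr rfl fun q _ => dx5 y (e q) _
      rw [← hu1 b, dx4, h3, Finset.smul_sum]
      exact Finset.sum_congr rfl fun q _ => (mul_smul _ _ _).symm
    · refine ⟨fun _ => 0, fun b => ?_⟩
      rw [hS5 (w b) x, dx2]
      · simp only [zero_smul, Finset.sum_const_zero]
      · intro g
        by_contra h1
        obtain ⟨-, g', hg'⟩ := hw b _ h1
        exact hx ⟨g⁻¹ * g', by rw [mul_smul, ← hg', inv_smul_smul]⟩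
  choose r hr using hone
  choose S₀ hS₀ hS₀' using fun b : B => hS3 (w b)
  let S : Finset X := Finset.univ.biUnion S₀
  refine ⟨fun q => ∑ x ∈ S, r x q, fun b => ?_⟩
  rw [hS₀' b S (Finset.subset_biUnion_of_mem S₀ (Finset.mem_univ b)),
    Finset.sum_congr rfl fun x _ => hr x b, Finset.sum_comm]
  exact Finset.sum_congr rfl fun q _ => (Finset.sum_smul).symm

end Pool.Agent.WaldX
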