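import Mathlib
import Pool.Agent.Lib.MP_8f66f0_al_WaldX.Spec
import Pool.Agent.Lib.MP_8f66f0_al_WaldTL.DxA
import Pool.Agent.Lib.MP_8f66f0_al_WaldTL.DxSl
import Pool.Agent.Lib.MP_8f66f0_al_WaldTL.Tw
import Pool.Agent.Lib.MP_8f66f0_al_WaldTL.RelOne
import Pool.Agent.Lib.MP_8f66f0_al_WaldTL.Rel

/-! X7: bounded elements of the kernel of `tw h`, coherent stabilizers. -/

set_option autoImplicit false

namespace Pool.Agent.WaldX

open Pool.Agent.Wald Pool.Agent.WaldT Pool.Agent.WaldTL Finsupp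

theorem ker (LL : Type) [CommRing LL] : S_Ker LL := by
  classical
  intro E X _ _ hE A B _ _ h F
  have h2 := dxSl LL
  have h3 := tw_props LL (dxA LL) (dxSl LL)
  have h4 := rel LL (dxA LL) (relOne LL (dxA LL))
  obtain ⟨T0, ρ, r1, r2⟩ := h4 E X hE B (A × F) (fun q => q.2.1) (fun q j => h q.1 j)
  let z0 : Fin T0 → A → (X →₀ MonoidAlgebra LL E) :=
    fun t i => ∑ e : F, single e.1 (ρ t (i, e))
  have htw : ∀ t j, tw h (z0 t) j = 0 := by
    intro t j
    have h5 := r1 t j
    rw [Fintype.sum_prod_type] at h5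
    unfold WaldTL.tw
    rw [← h5]
    refine Finset.sum_congr rfl fun i _ => ?_
    rw [map_sum]
    refine Finset.sum_congr rfl fun e _ => ?_
    rw [Finsupp.linearCombination_single]
  have hsl : ∀ t, ∃ (S : Finset X) (κ : X → A → MonoidAlgebra LL E),
      ∀ i, z0 t i = ∑ x ∈ S, dx x (κ x i) := fun t => (h2 E X).2 A (z0 t)
  choose S κ hκ using hsl
  have hκh : ∀ t, ∀ x ∈ S t, ∀ j, ∑ i, κ t x i * h i j = 0 := by
    intro t
    refine (h3 E X X A B h).2.2.2 (S t) (κ t) ?_
    intro j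
    rw [← htw t j]
    congr 1
    funext i
    exact (hκ t i).symm
  obtain ⟨ε⟩ : Nonempty ((Σ t : Fin T0, {x // x ∈ S t}) ≃
      Fin (Fintype.card (Σ t : Fin T0, {x // x ∈ S t}))) := ⟨Fintype.equivFin _⟩
  refine ⟨Fintype.card (Σ t : Fin T0, {x // x ∈ S t}), fun p => (ε.symm p).2.1,
    fun p i => κ (ε.symm p).1 (ε.symm p).2.1 i,
    fun p j => hκh (ε.symm p).1 (ε.symm p).2.1 (ε.symm p).2.2 j, ?_⟩
  intro z hzB hz
  have hzs : ∀ i, z i = ∑ e : F, single e.1 (z i e.1) := by
    intro i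
    ext1 x
    rw [Finsupp.finsetSum_apply]
    by_cases hx : x ∈ F
    · rw [Finset.sum_eq_single_of_mem (⟨x, hx⟩ : F) (Finset.mem_univ _)]
      · rw [Finsupp.single_eq_same]
      · intro e _ he
        refine Finsupp.single_eq_of_ne ?_
        intro h6
        exact he (Subtype.ext h6.symm)
    · have h6 : z i x = 0 := by
        by_contra h7
        exact hx (hzB i x h7)
      rw [h6]
      refine (Finset.sum_eq_zero fun e _ => ?_).symm
      refine Finsupp.single_eq_of_ne ?_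
      intro h7
      exact hx (h7 ▸ e.2)
  obtain ⟨w, hw⟩ := r2 (fun q => z q.1 q.2.1) (by
    intro j
    rw [Fintype.sum_prod_type]
    rw [← hz j]
    unfold WaldTL.tw
    refine Finset.sum_congr rfl fun i _ => ?_
    conv_rhs => rw [hzs i]
    rw [map_sum]
    refine Finset.sum_congr rfl fun e _ => ?_
    rw [Finsupp.linearCombination_single])
  refine ⟨fun p => w (ε.symm p).1, fun i => ?_⟩
  have h8 : z i = ∑ t, w t • z0 t i := by
    rw [hzs i]
    simp only [z0, Finset.smul_sum]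
    rw [Finset.sum_comm]
    refine Finset.sum_congr rfl fun e _ => ?_
    have h9 : z i e.1 = ∑ t, w t * ρ t (i, e) := hw (i, e)
    rw [h9, Finsupp.single_finsetSum]
    refine Finset.sum_congr rfl fun t _ => ?_
    rw [Finsupp.smul_single, smul_eq_mul]
  rw [Equiv.sum_comp ε.symm (fun p => w p.1 • dx p.2.1 (κ p.1 p.2.1 i)), h8, Fintype.sum_sigma]
  refine Finset.sum_congr rfl fun t _ => ?_
  rw [hκ t i, Finset.smul_sum]
  exact (Finset.sum_coe_sort (S t) (fun x => w t • dx x (κ t x i))).symm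

end Pool.Agent.WaldX
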