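import Pool.Agent.Lib.MP_8f66f0_al_WaldX.SpecY

/-! Group rings of extensions of finite index are noetherian. -/

set_option autoImplicit false

namespace Pool.Agent.WaldX

open Finsupp

theorem noeF : S_NoeF := by
  intro LL N _ _ H _ hH
  classical
  let f : MonoidAlgebra LL H →+* MonoidAlgebra LL N := MonoidAlgebra.mapDomainRingHom LL H.subtype
  let _ : Module (MonoidAlgebra LL H) (MonoidAlgebra LL N) := Module.compHom _ f
  have hsm : ∀ (a : MonoidAlgebra LL H) (x : MonoidAlgebra LL N), a • x = f a * x :=
    fun a x => rfl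
  have : IsScalarTower (MonoidAlgebra LL H) (MonoidAlgebra LL N) (MonoidAlgebra LL N) := by
    refine ⟨fun a s x => ?_⟩
    rw [hsm, hsm, smul_eq_mul, smul_eq_mul, mul_assoc]
  have : Finite (N ⧸ H) := inferInstance
  have : Module.Finite (MonoidAlgebra LL H) (MonoidAlgebra LL N) := by
    refine ⟨⟨(Set.range fun q : N ⧸ H =>
      (MonoidAlgebra.single (q.out)⁻¹ (1 : LL) : MonoidAlgebra LL N)).toFinite.toFinset, ?_⟩⟩
    rw [Set.Finite.coe_toFinset, eq_top_iff]
    intro z _
    induction z using MonoidAlgebra.induction_linear with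
    | zero => exact Submodule.zero_mem _
    | add x y hx hy => exact Submodule.add_mem _ (hx trivial) (hy trivial)
    | single n r =>
      have h1 : n * (QuotientGroup.mk n⁻¹ : N ⧸ H).out ∈ H := by
        have h2 : (QuotientGroup.mk (QuotientGroup.mk n⁻¹ : N ⧸ H).out : N ⧸ H) =
          QuotientGroup.mk n⁻¹ := QuotientGroup.out_eq' _
        have h3 := (QuotientGroup.eq (s := H)).1 h2.symm
        rwa [inv_inv] at h3
      have h4 : (MonoidAlgebra.single n r : MonoidAlgebra LL N) =
          (MonoidAlgebra.single (⟨_, h1⟩ : H) r : MonoidAlgebra LL H) •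
            (MonoidAlgebra.single (QuotientGroup.mk n⁻¹ : N ⧸ H).out⁻¹ (1 : LL) :
              MonoidAlgebra LL N) := by
        rw [hsm]
        have h5 : f (MonoidAlgebra.single (⟨_, h1⟩ : H) r) =
            MonoidAlgebra.single (n * (QuotientGroup.mk n⁻¹ : N ⧸ H).out) r := by
          simp [f]
        rw [h5, MonoidAlgebra.single_mul_single, mul_one, mul_inv_cancel_right]
      rw [h4]
      exact Submodule.smul_mem _ _ (Submodule.subset_span ⟨_, rfl⟩)
  have h6 : IsNoetherian (MonoidAlgebra LL H) (MonoidAlgebra LL N) :=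
    isNoetherian_of_isNoetherianRing_of_finite _ _
  exact isNoetherian_of_tower (MonoidAlgebra LL H) h6

end Pool.Agent.WaldX
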