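import Pool.Agent.Lib.MP_8f66f0_al_WaldX.SpecY

/-! Skew Laurent polynomials: the Hilbert basis theorem. -/

set_option autoImplicit false

namespace Pool.Agent.WaldX

open Finsupp

section Abs

variable {R A : Type} [Ring R] [Ring A]

/-- `R` is a skew Laurent polynomial ring over `A`; `P` is the projection to the degree `0`. -/
private structure Lau (P : R →+ A) (f : A →+* R) (τ : ℤ → R) : Prop where
  zero : τ 0 = 1
  add : ∀ i j, τ (i + j) = τ i * τ j
  lin : ∀ b z, P (f b * z) = b * P z
  conj : ∀ j b, ∃ b', τ j * f b = f b' * τ j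
  fin : ∀ z, ∃ M : ℕ, ∀ i : ℤ, (M : ℤ) ≤ |i| → P (τ (-i) * z) = 0
  inj : ∀ z, (∀ i : ℤ, P (τ (-i) * z) = 0) → z = 0

variable {P : R →+ A} {f : A →+* R} {τ : ℤ → R}

private theorem Lau.shift (h : Lau P f τ) (m i : ℤ) (z : R) :
    P (τ (-i) * (τ m * z)) = P (τ (-(i - m)) * z) := by
  rw [← mul_assoc, ← h.add]
  congr 3
  ring

private theorem Lau.cancel (h : Lau P f τ) (m : ℤ) (z : R) : τ (-m) * (τ m * z) = z := by
  rw [← mul_assoc, ← h.add, neg_add_cancel, h.zero, one_mul]

/-- Multiplication of the coefficients. -/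
private theorem Lau.cm (h : Lau P f τ) (n : ℤ) (b : A) : ∃ r : R, ∀ z,
    P (τ (-n) * (r * z)) = b * P (τ (-n) * z) ∧
      ∀ i : ℤ, P (τ (-i) * z) = 0 → P (τ (-i) * (r * z)) = 0 := by
  refine ⟨τ n * f b * τ (-n), fun z => ⟨?_, fun i hi => ?_⟩⟩
  · have e : τ (-n) * (τ n * f b * τ (-n) * z) = f b * (τ (-n) * z) := by
      rw [mul_assoc (τ n * f b), mul_assoc (τ n), h.cancel]
    rw [e, h.lin]
  · obtain ⟨b', hb'⟩ := h.conj (n - i) b
    have e : τ (-i) * (τ n * f b * τ (-n) * z) = f b' * (τ (-i) * z) := by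
      have e1 : τ (-i) * (τ n * f b * τ (-n) * z) = (τ (-i) * τ n * f b) * (τ (-n) * z) := by
        noncomm_ring
      rw [e1, ← h.add, show -i + n = n - i by ring, hb', mul_assoc, ← mul_assoc (τ (n - i)),
        ← h.add]
      congr 3
      ring
    rw [e, h.lin, hi, mul_zero]

/-- The leading coefficients of the elements of `I` with degrees between `0` and `n`. -/
private def JJ (h : Lau P f τ) (I : Submodule R R) (n : ℕ) : Submodule A A where
  carrier := {a | ∃ z ∈ I, (∀ i : ℤ, i < 0 ∨ (n : ℤ) < i → P (τ (-i) * z) = 0) ∧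
    P (τ (-(n : ℤ)) * z) = a}
  zero_mem' := ⟨0, I.zero_mem, fun i _ => by rw [mul_zero, map_zero], by rw [mul_zero, map_zero]⟩
  add_mem' := by
    rintro a b ⟨z, hz, h1, h2⟩ ⟨w, hw, h3, h4⟩
    refine ⟨z + w, I.add_mem hz hw, fun i hi => ?_, ?_⟩
    · rw [mul_add, map_add, h1 i hi, h3 i hi, add_zero]
    · rw [mul_add, map_add, h2, h4]
  smul_mem' := by
    rintro c a ⟨z, hz, h1, h2⟩
    obtain ⟨r, hr⟩ := h.cm (n : ℤ) c
    refine ⟨r * z, I.smul_mem r hz, fun i hi => (hr z).2 i (h1 i hi), ?_⟩
    rw [(hr z).1, h2, smul_eq_mul]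

private theorem JJ_mono_ideal (h : Lau P f τ) {I I' : Submodule R R} (hI : I ≤ I') (n : ℕ) :
    JJ h I n ≤ JJ h I' n := by
  rintro a ⟨z, hz, h1, h2⟩
  exact ⟨z, hI hz, h1, h2⟩

private theorem JJ_mono (h : Lau P f τ) (I : Submodule R R) : Monotone (JJ h I) := by
  refine monotone_nat_of_le_succ fun n => ?_
  rintro a ⟨z, hz, h1, h2⟩
  refine ⟨τ 1 * z, I.smul_mem _ hz, fun i hi => ?_, ?_⟩
  · rw [h.shift]
    apply h1
    rcases hi with hi | hi
    · left; omega
    · right; push_cast at hi; omega
  · rw [h.shift, ← h2]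
    congr 3
    push_cast
    ring

private theorem Lau.noeth (h : Lau P f τ) (hA : IsNoetherianRing A) : IsNoetherianRing R := by
  classical
  refine ⟨fun I => ?_⟩
  obtain ⟨m, hm⟩ := monotone_stabilizes_iff_noetherian.2 hA ⟨JJ h I, JJ_mono h I⟩
  have hm' : ∀ n, m ≤ n → JJ h I m = JJ h I n := hm
  -- generators in the degree `n`
  have hgen : ∀ n : ℕ, ∃ Z : Finset R, (Z : Set R) ⊆ I ∧
      JJ h I n ≤ JJ h (Submodule.span R (Z : Set R)) n := by
    intro n
    obtain ⟨S, hS⟩ : (JJ h I n).FG := hA.noetherian _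
    have hch : ∀ s : S, ∃ z ∈ I, (∀ i : ℤ, i < 0 ∨ (n : ℤ) < i → P (τ (-i) * z) = 0) ∧
        P (τ (-(n : ℤ)) * z) = s := by
      intro s
      have : (s : A) ∈ JJ h I n := by
        rw [← hS]
        exact Submodule.subset_span s.2
      exact this
    choose zf hz1 hz2 hz3 using hch
    refine ⟨Finset.univ.image zf, ?_, ?_⟩
    · intro z hz
      rw [Finset.mem_coe, Finset.mem_image] at hz
      obtain ⟨s, -, rfl⟩ := hz
      exact hz1 s
    · rw [← hS, Submodule.span_le]
      intro s hs
      exact ⟨zf ⟨s, hs⟩, Submodule.subset_span (by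
        rw [Finset.mem_coe, Finset.mem_image]
        exact ⟨_, Finset.mem_univ _, rfl⟩), hz2 _, hz3 _⟩
  choose Z hZ1 hZ2 using hgen
  set W : Finset R := (Finset.range (m + 1)).biUnion Z with hW
  have hWI : Submodule.span R (W : Set R) ≤ I := by
    rw [Submodule.span_le]
    intro z hz
    rw [Finset.mem_coe, hW, Finset.mem_biUnion] at hz
    obtain ⟨n, -, hn⟩ := hz
    exact hZ1 n hn
  have hJ : ∀ n ≤ m, JJ h I n ≤ JJ h (Submodule.span R (W : Set R)) n := by
    intro n hn
    refine (hZ2 n).trans (JJ_mono_ideal h (Submodule.span_mono ?_) n)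
    intro z hz
    rw [Finset.mem_coe, hW, Finset.mem_biUnion]
    exact ⟨n, Finset.mem_range.2 (by omega), hz⟩
  -- elements with nonnegative degrees
  have hpos : ∀ n : ℕ, ∀ z ∈ I, (∀ i : ℤ, i < 0 ∨ (n : ℤ) ≤ i → P (τ (-i) * z) = 0) →
      z ∈ Submodule.span R (W : Set R) := by
    intro n
    induction n with
    | zero =>
      intro z _ hz
      have : z = 0 := h.inj z fun i => hz i (by
        rcases lt_or_ge i 0 with hi | hi
        · exact Or.inl hi
        · exact Or.inr (by exact_mod_cast hi))
      rw [this]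
      exact Submodule.zero_mem _
    | succ n ih =>
      intro z hzI hz
      have ha : P (τ (-(n : ℤ)) * z) ∈ JJ h I n := by
        refine ⟨z, hzI, fun i hi => hz i ?_, rfl⟩
        rcases hi with hi | hi
        · exact Or.inl hi
        · right; push_cast; omega
      -- an element of the span with the same leading term
      have hw : ∃ w ∈ Submodule.span R (W : Set R),
          (∀ i : ℤ, i < 0 ∨ (n : ℤ) < i → P (τ (-i) * w) = 0) ∧
          P (τ (-(n : ℤ)) * w) = P (τ (-(n : ℤ)) * z) := by
        rcases le_total n m with hn | hn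
        · exact hJ n hn ha
        · rw [← hm' n hn] at ha
          obtain ⟨w, hw1, hw2, hw3⟩ := hJ m le_rfl ha
          refine ⟨τ ((n : ℤ) - m) * w, Submodule.smul_mem _ _ hw1, fun i hi => ?_, ?_⟩
          · rw [h.shift]
            apply hw2
            rcases hi with hi | hi
            · left; omega
            · right; omega
          · rw [h.shift, ← hw3]
            congr 3
            ring
      obtain ⟨w, hw1, hw2, hw3⟩ := hw
      have h5 : z - w ∈ Submodule.span R (W : Set R) := by
        refine ih (z - w) (I.sub_mem hzI (hWI hw1)) fun i hi => ?_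
        rw [mul_sub, map_sub]
        rcases eq_or_ne i n with rfl | hne
        · rw [hw3, sub_self]
        · have h6 : i < 0 ∨ (n : ℤ) < i := by
            rcases hi with hi | hi
            · exact Or.inl hi
            · right; omega
          rw [hw2 i h6, sub_zero]
          apply hz
          rcases h6 with hi | hi
          · exact Or.inl hi
          · right; push_cast; omega
      have h7 : z = (z - w) + w := by abel
      rw [h7]
      exact Submodule.add_mem _ h5 hw1
  refine ⟨W, le_antisymm hWI fun z hz => ?_⟩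
  obtain ⟨M, hM⟩ := h.fin z
  have h8 : τ M * z ∈ Submodule.span R (W : Set R) := by
    refine hpos (2 * M + 1) _ (I.smul_mem _ hz) fun i hi => ?_
    rw [h.shift]
    apply hM
    rcases hi with hi | hi
    · rw [abs_of_nonpos (by omega)]
      omega
    · push_cast at hi
      rw [abs_of_nonneg (by omega)]
      omega
  rw [← h.cancel M z]
  exact Submodule.smul_mem _ _ h8

end Abs

section Grp

variable {LL N : Type} [CommRing LL] [Group N]

/-- The restriction of an element of the group ring to a subgroup. -/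
private noncomputable def rst (K : Subgroup N) : MonoidAlgebra LL N →+ MonoidAlgebra LL K where
  toFun z := MonoidAlgebra.ofCoeff (z.coeff.comapDomain Subtype.val Subtype.val_injective.injOn)
  map_zero' := by
    ext k
    simp
  map_add' x y := by
    ext k
    simp

private theorem rst_apply (K : Subgroup N) (z : MonoidAlgebra LL N) (k : K) :
    (rst K z).coeff k = z.coeff k := by
  simp [rst]

end Grp

theorem noeZ : S_NoeZ := by
  intro LL N _ _ π hK
  classical
  let f : MonoidAlgebra LL π.ker →+* MonoidAlgebra LL N :=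
    MonoidAlgebra.mapDomainRingHom LL π.ker.subtype
  have hf : ∀ (k : π.ker) (r : LL), f (MonoidAlgebra.single k r) =
      MonoidAlgebra.single (k : N) r := by
    intro k r
    simp [f]
  by_cases hπ : ∀ n, π n = 1
  · refine isNoetherianRing_of_surjective _ _ f fun z => ?_
    induction z using MonoidAlgebra.induction_linear with
    | zero => exact ⟨0, map_zero f⟩
    | add x y hx hy =>
      obtain ⟨a, rfl⟩ := hx
      obtain ⟨b, rfl⟩ := hy
      exact ⟨a + b, map_add f a b⟩
    | single n r => exact ⟨MonoidAlgebra.single ⟨n, hπ n⟩ r, hf _ _⟩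
  · -- a generator of the range
    let S : AddSubgroup ℤ :=
      { carrier := {a : ℤ | ∃ n : N, π n = Multiplicative.ofAdd a}
        zero_mem' := ⟨1, by rw [map_one]; rfl⟩
        add_mem' := by
          rintro a b ⟨n, hn⟩ ⟨m, hm⟩
          exact ⟨n * m, by rw [map_mul, hn, hm]; rfl⟩
        neg_mem' := by
          rintro a ⟨n, hn⟩
          exact ⟨n⁻¹, by rw [map_inv, hn]; rfl⟩ }
    obtain ⟨c, hc⟩ := Int.subgroup_cyclic S
    have hS : ∀ n : N, ∃ k : ℤ, Multiplicative.toAdd (π n) = k * c := by
      intro n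
      have h1 : Multiplicative.toAdd (π n) ∈ S := ⟨n, (ofAdd_toAdd _).symm⟩
      rw [hc, AddSubgroup.mem_closure_singleton] at h1
      obtain ⟨k, hk⟩ := h1
      exact ⟨k, by rw [← hk, smul_eq_mul]⟩
    have hc0 : c ≠ 0 := by
      intro h0
      apply hπ
      intro n
      obtain ⟨k, hk⟩ := hS n
      rw [h0, mul_zero] at hk
      exact Multiplicative.toAdd.injective hk
    obtain ⟨t, ht⟩ : ∃ t : N, π t = Multiplicative.ofAdd c := by
      have : c ∈ S := by
        rw [hc]
        exact AddSubgroup.mem_closure_singleton_self c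
      exact this
    have hti : ∀ i : ℤ, Multiplicative.toAdd (π (t ^ i)) = i * c := by
      intro i
      rw [map_zpow, ht, ← ofAdd_zsmul, toAdd_ofAdd, smul_eq_mul]
    have hcoe : ∀ (i : ℤ) (z : MonoidAlgebra LL N) (k : π.ker),
        (rst π.ker ((MonoidAlgebra.single (t ^ (-i)) (1 : LL) : MonoidAlgebra LL N) * z)).coeff k =
          z.coeff (t ^ i * k) := by
      intro i z k
      rw [rst_apply, MonoidAlgebra.coeff_single_mul_apply, one_mul, zpow_neg, inv_inv]
    refine Lau.noeth (P := rst π.ker) (f := f)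
      (τ := fun i => MonoidAlgebra.single (t ^ i) (1 : LL)) ⟨?_, ?_, ?_, ?_, ?_, ?_⟩ hK
    · simp only [zpow_zero]
      rfl
    · intro i j
      simp only [MonoidAlgebra.single_mul_single, mul_one, zpow_add]
    · intro b z
      induction b using MonoidAlgebra.induction_linear with
      | zero => rw [map_zero, zero_mul, map_zero, zero_mul]
      | add x y hx hy => rw [map_add, add_mul, map_add, hx, hy, add_mul]
      | single k r =>
        ext l
        rw [hf, rst_apply, MonoidAlgebra.coeff_single_mul_apply,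
          MonoidAlgebra.coeff_single_mul_apply, rst_apply]
        rfl
    · intro j b
      induction b using MonoidAlgebra.induction_linear with
      | zero => exact ⟨0, by rw [map_zero, mul_zero, zero_mul]⟩
      | add x y hx hy =>
        obtain ⟨x', hx⟩ := hx
        obtain ⟨y', hy⟩ := hy
        exact ⟨x' + y', by rw [map_add, mul_add, hx, hy, map_add, add_mul]⟩
      | single k r =>
        have hk : t ^ j * (k : N) * (t ^ j)⁻¹ ∈ π.ker :=
          (MonoidHom.normal_ker π).conj_mem k k.2 (t ^ j)
        refine ⟨MonoidAlgebra.single ⟨_, hk⟩ r, ?_⟩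
        rw [hf, hf, MonoidAlgebra.single_mul_single, MonoidAlgebra.single_mul_single, one_mul,
          mul_one]
        congr 1
        simp only [inv_mul_cancel_right]
    · intro z
      refine ⟨(∑ n ∈ z.coeff.support, (Multiplicative.toAdd (π n)).natAbs) + 1, fun i hi => ?_⟩
      ext k
      rw [hcoe]
      by_contra hne
      have hmem : t ^ i * (k : N) ∈ z.coeff.support := Finsupp.mem_support_iff.2 hne
      have h1 : (Multiplicative.toAdd (π (t ^ i * (k : N)))).natAbs ≤
          ∑ n ∈ z.coeff.support, (Multiplicative.toAdd (π n)).natAbs :=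
        Finset.single_le_sum (f := fun n => (Multiplicative.toAdd (π n)).natAbs)
          (fun _ _ => Nat.zero_le _) hmem
      have h2 : Multiplicative.toAdd (π (t ^ i * (k : N))) = i * c := by
        rw [map_mul, (MonoidHom.mem_ker).1 k.2, mul_one, hti]
      rw [h2, Int.natAbs_mul] at h1
      have h3 : 1 ≤ c.natAbs := Int.natAbs_pos.2 hc0
      have h4 : i.natAbs ≤ i.natAbs * c.natAbs := Nat.le_mul_of_pos_right _ h3
      rw [Int.abs_eq_natAbs] at hi
      have h5 : (∑ n ∈ z.coeff.support, (Multiplicative.toAdd (π n)).natAbs) + 1 ≤ i.natAbs :=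
        Int.ofNat_le.1 hi
      omega
    · intro z hz
      ext n
      obtain ⟨i, hi⟩ := hS n
      have hk : t ^ (-i) * n ∈ π.ker := by
        rw [MonoidHom.mem_ker]
        apply Multiplicative.toAdd.injective
        rw [map_mul, toAdd_mul, hti, hi, toAdd_one]
        ring
      have h1 := hcoe i z ⟨_, hk⟩
      have h2 : t ^ i * (t ^ (-i) * n) = n := by
        rw [← mul_assoc, ← zpow_add, add_neg_cancel, zpow_zero, one_mul]
      simp only [h2] at h1
      rw [← h1]
      have h3 := hz i
      rw [h3]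
      rfl

end Pool.Agent.WaldX
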