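import Pool.Agent.Lib.MP_8f66f0_al_WaldX.SpecY

/-! Y8: group rings of poly-(cyclic or finite) groups over noetherian rings are noetherian. -/

set_option autoImplicit false

namespace Pool.Agent.WaldX

open Pool.Agent.Wald Pool.Agent.WaldT Pool.Agent.WaldTL Pool.Agent.Ind Finsupp

private theorem poly_triv (LL N : Type) [CommRing LL] [IsNoetherianRing LL] [Group N]
    [Subsingleton N] : IsNoetherianRing (MonoidAlgebra LL N) := by
  refine isNoetherianRing_of_surjective LL (MonoidAlgebra LL N)
    (algebraMap LL (MonoidAlgebra LL N)) ?_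
  intro z
  induction z using MonoidAlgebra.induction_on with
  | of g =>
    refine ⟨1, ?_⟩
    rw [map_one, Subsingleton.elim g 1]
    exact (map_one _).symm
  | add a b ha hb =>
    obtain ⟨x, rfl⟩ := ha
    obtain ⟨y, rfl⟩ := hb
    exact ⟨x + y, map_add _ _ _⟩
  | smul r a ha =>
    obtain ⟨x, rfl⟩ := ha
    exact ⟨r * x, by rw [map_mul, Algebra.smul_def]⟩

/-- Y8 (Poly). -/
theorem poly (h1 : S_NoeF) (h2 : S_NoeZ) : S_Poly := by
  intro LL N _ _ _ hN
  induction hN with
  | triv => exact poly_triv LL _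
  | cyc π _ ih => exact h2 LL _ π ih
  | fin H _ ih => exact h1 LL _ H ih

end Pool.Agent.WaldX
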