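import Pool.Agent.Lib.MP_8f66f0_al_WaldX.Spec

/-!
# WaldX, module SlI: slices of a chain and of its boundary
-/

set_option autoImplicit false

namespace Pool.Agent.WaldX

open Pool.Agent.Wald Pool.Agent.WaldT Pool.Agent.WaldTL Finsupp

theorem slI (LL : Type) [CommRing LL] (h1 : S_Sl LL) (h2 : S_Bm LL) : S_SlI LL := by
  intro E X Y _ _ _ d s hs hd B _ I w hI x'
  classical
  obtain ⟨-, -, hX3, -, -⟩ := h1 E X
  obtain ⟨hY1, hY2, -, -, -⟩ := h1 E Y
  have h4 := (h2 E X Y X d s (fun _ => 0) fun _ => 0).2.2.2.1 hd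
  -- the slices at `e` as an additive map
  have hz : ∀ e : Y, sl (0 : Y →₀ MonoidAlgebra LL E) e = 0 := by
    intro e
    have h := hY1 0 0 e
    rw [add_zero] at h
    exact left_eq_add.1 h
  let A : Y → (Y →₀ MonoidAlgebra LL E) →+ MonoidAlgebra LL E := fun e =>
    { toFun := fun z => sl z e
      map_zero' := hz e
      map_add' := fun z z' => hY1 z z' e }
  -- the finite set
  choose S₀ hS₀ hS₀' using fun b : B => hX3 (w b)
  let S : Finset X := Finset.univ.biUnion S₀
  have hSb : ∀ b, S₀ b ⊆ S := fun b => Finset.subset_biUnion_of_mem S₀ (Finset.mem_univ b)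
  have hw : ∀ b, w b = ∑ x ∈ S, dx x (sl (w b) x) := fun b => hS₀' b S (hSb b)
  have hw0 : ∀ b x, x ∉ S → sl (w b) x = 0 := fun b x hx => hS₀ b x fun h => hx (hSb b h)
  -- the slices of the boundary
  have hsl : ∀ b e, sl (bm LL d (w b)) e = ∑ x ∈ S, (d x) e • sl (w b) x := by
    intro b e
    have h5 : bm LL d (w b) = ∑ x ∈ S, (d x).sum fun y n => n • dx y (sl (w b) x) := by
      conv_lhs => rw [hw b]
      rw [map_sum]
      exact Finset.sum_congr rfl fun x _ => h4 x _
    change A e (bm LL d (w b)) = _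
    rw [h5, map_sum]
    refine Finset.sum_congr rfl fun x _ => ?_
    rw [Finsupp.sum, map_sum]
    have h6 : ∀ y ∈ (d x).support, A e ((d x) y • dx y (sl (w b) x)) =
        if e = y then (d x) y • sl (w b) x else 0 := by
      intro y _
      rw [map_zsmul]
      by_cases hy : y = e
      · rw [if_pos hy.symm]
        congr 1
        exact (hY2 y e _).1 hy
      · rw [if_neg (Ne.symm hy)]
        have h7 : A e (dx y (sl (w b) x)) = 0 := (hY2 y e _).2 hy
        rw [h7, smul_zero]
    rw [Finset.sum_congr rfl h6, Finset.sum_ite_eq]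
    split_ifs with h8
    · rfl
    · rw [Finsupp.notMem_support_iff.1 h8, zero_smul]
  -- the combination
  let U : Finset Y := S.biUnion fun x => (d x).support
  have hU : ∀ x ∈ S, ∑ e ∈ U, (s e) x' * (d x) e = if x' = x then 1 else 0 := by
    intro x hx
    have h5 := DFunLike.congr_fun (hs x) x'
    rw [zl, Finsupp.sum_of_support_subset (s := U) _
      (Finset.subset_biUnion_of_mem (fun x => (d x).support) hx) (fun y n => n • s y)
      fun i _ => zero_smul _ _, Finsupp.finsetSum_apply, Finsupp.single_apply] at h5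
    have h6 : (if x' = x then (1 : ℤ) else 0) = if x = x' then 1 else 0 := by
      by_cases h : x' = x
      · rw [if_pos h, if_pos h.symm]
      · rw [if_neg h, if_neg (Ne.symm h)]
    rw [h6, ← h5]
    refine Finset.sum_congr rfl fun e _ => ?_
    rw [Finsupp.smul_apply, smul_eq_mul, mul_comm]
  have hfin : (fun b => sl (w b) x') =
      ∑ e ∈ U, (s e) x' • fun b => sl (bm LL d (w b)) e := by
    funext b
    rw [Finset.sum_apply]
    have h5 : ∀ e ∈ U, ((s e) x' • fun b => sl (bm LL d (w b)) e) b =
        ∑ x ∈ S, ((s e) x' * (d x) e) • sl (w b) x := by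
      intro e _
      rw [Pi.smul_apply, hsl, Finset.smul_sum]
      exact Finset.sum_congr rfl fun x _ => (mul_smul _ _ _).symm
    rw [Finset.sum_congr rfl h5, Finset.sum_comm]
    have h6 : ∀ x ∈ S, ∑ e ∈ U, ((s e) x' * (d x) e) • sl (w b) x =
        if x' = x then sl (w b) x else 0 := by
      intro x hx
      rw [← Finset.sum_smul, hU x hx]
      split_ifs
      · rw [one_smul]
      · rw [zero_smul]
    rw [Finset.sum_congr rfl h6, Finset.sum_ite_eq]
    split_ifs with h7
    · rfl
    · exact hw0 b x' h7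
  rw [hfin]
  exact Submodule.sum_mem _ fun e _ => zsmul_mem (hI e) _

end Pool.Agent.WaldX
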