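import Pool.Agent.Lib.MP_8f66f0_al_WaldX.SpecY

/-! The swindle of Eilenberg. -/

set_option autoImplicit false

namespace Pool.Agent.WaldX

open Finsupp

section

variable {R : Type} [Ring R]

private theorem swi_split (G K : Type) [AddCommGroup G] [Module R G] [AddCommGroup K] [Module R K]
    (p : G →ₗ[R] K) (s : K →ₗ[R] G) (h : ∀ k, p (s k) = k) :
    Nonempty (G ≃ₗ[R] LinearMap.ker p × K) := by
  refine ⟨LinearEquiv.ofLinear
    ((LinearMap.codRestrict (LinearMap.ker p) (LinearMap.id - s.comp p) (fun x => by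
      rw [LinearMap.mem_ker, LinearMap.sub_apply, LinearMap.comp_apply, LinearMap.id_apply,
        map_sub, h, sub_self])).prod p)
    ((LinearMap.ker p).subtype.coprod s) ?_ ?_⟩
  · refine LinearMap.ext fun x => ?_
    obtain ⟨⟨a, ha⟩, k⟩ := x
    rw [LinearMap.mem_ker] at ha
    have h1 : p (a + s k) = k := by rw [map_add, ha, h, zero_add]
    refine Prod.ext (Subtype.ext ?_) h1
    show a + s k - s (p (a + s k)) = a
    rw [h1, add_sub_cancel_right]
  · refine LinearMap.ext fun x => ?_
    show x - s (p x) + s (p x) = x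
    exact sub_add_cancel _ _

private noncomputable def swi_prod (A K : Type) [AddCommGroup A] [Module R A] [AddCommGroup K]
    [Module R K] : (ℕ →₀ A × K) ≃ₗ[R] (ℕ →₀ A) × (ℕ →₀ K) :=
  LinearEquiv.ofLinear
    ((Finsupp.mapRange.linearMap (LinearMap.fst R A K)).prod
      (Finsupp.mapRange.linearMap (LinearMap.snd R A K)))
    ((Finsupp.mapRange.linearMap (LinearMap.inl R A K)).coprod
      (Finsupp.mapRange.linearMap (LinearMap.inr R A K)))
    (by
      refine LinearMap.ext fun x => ?_
      refine Prod.ext (Finsupp.ext fun n => ?_) (Finsupp.ext fun n => ?_)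
      · show (x.1 n + 0 : A) = x.1 n
        exact add_zero _
      · show (0 + x.2 n : K) = x.2 n
        exact zero_add _)
    (by
      refine LinearMap.ext fun x => Finsupp.ext fun n => ?_
      refine Prod.ext ?_ ?_
      · show ((x n).1 + 0 : A) = (x n).1
        exact add_zero _
      · show (0 + (x n).2 : K) = (x n).2
        exact zero_add _)

private noncomputable def swi_shift (K : Type) [AddCommGroup K] [Module R K] :
    (K × (ℕ →₀ K)) ≃ₗ[R] (ℕ →₀ K) :=
  (LinearEquiv.prodComm R K (ℕ →₀ K)).trans <|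
    (LinearEquiv.prodCongr (LinearEquiv.refl R (ℕ →₀ K))
      (Finsupp.LinearEquiv.finsuppUnique R K PUnit.{1}).symm).trans <|
      (Finsupp.sumFinsuppLEquivProdFinsupp R).symm.trans <|
        Finsupp.domLCongr Equiv.natSumPUnitEquivNat.{0}

end

theorem swi : S_Swi := by
  intro R K _ _ _ _
  obtain ⟨s, hs⟩ := Module.projective_def.mp ‹Module.Projective R K›
  obtain ⟨eG⟩ := swi_split (R := R) (K →₀ R) K (Finsupp.linearCombination R (id : K → K)) s hs
  let A : Type := LinearMap.ker (Finsupp.linearCombination R (id : K → K))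
  let e1 : ((ℕ × K) →₀ R) ≃ₗ[R] (ℕ →₀ A) × (ℕ →₀ K) :=
    ((Finsupp.finsuppProdLEquiv R).trans (Finsupp.mapRange.linearEquiv eG)).trans
      (swi_prod A K)
  exact ⟨ℕ × K, ⟨(LinearEquiv.prodCongr (LinearEquiv.refl R K) e1).trans <|
    (LinearEquiv.prodAssoc R K (ℕ →₀ A) (ℕ →₀ K)).symm.trans <|
      (LinearEquiv.prodCongr (LinearEquiv.prodComm R K (ℕ →₀ A))
        (LinearEquiv.refl R (ℕ →₀ K))).trans <|
        (LinearEquiv.prodAssoc R (ℕ →₀ A) K (ℕ →₀ K)).trans <|
          (LinearEquiv.prodCongr (LinearEquiv.refl R (ℕ →₀ A)) (swi_shift K)).trans e1.symm⟩⟩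

end Pool.Agent.WaldX
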