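import Pool.Agent.Lib.MP_8f66f0_al_WaldX.Sl
import Pool.Agent.Lib.MP_8f66f0_al_WaldX.Bm
import Pool.Agent.Lib.MP_8f66f0_al_WaldX.Contr
import Pool.Agent.Lib.MP_8f66f0_al_WaldX.SlI
import Pool.Agent.Lib.MP_8f66f0_al_WaldX.Im1
import Pool.Agent.Lib.MP_8f66f0_al_WaldX.Im
import Pool.Agent.Lib.MP_8f66f0_al_WaldX.Ker
import Pool.Agent.Lib.MP_8f66f0_al_WaldX.C1X
import Pool.Agent.Lib.MP_8f66f0_al_WaldX.Swi
import Pool.Agent.Lib.MP_8f66f0_al_WaldX.Fre
import Pool.Agent.Lib.MP_8f66f0_al_WaldX.Cf
import Pool.Agent.Lib.MP_8f66f0_al_WaldX.FrX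
import Pool.Agent.Lib.MP_8f66f0_al_WaldX.Ext
import Pool.Agent.Lib.MP_8f66f0_al_WaldX.NoeF
import Pool.Agent.Lib.MP_8f66f0_al_WaldX.NoeZ
import Pool.Agent.Lib.MP_8f66f0_al_WaldX.Poly

/-! Assembly: condition (C1) for groups with a permutation resolution of length two, and for
extensions of polycyclic groups by groups of cohomological dimension at most two. -/

set_option autoImplicit false

namespace Pool.Agent.WaldX

open Pool.Agent.Wald Pool.Agent.WaldT Pool.Agent.WaldTL Pool.Agent.Ind

/-- Condition (C1) for groups with a permutation resolution of length two. -/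
theorem c1_cx (LL : Type) [CommRing LL] : S_C1X LL :=
  c1X LL (sl_props LL) (bm_props LL) (con LL (bm_props LL)) (slI LL (sl_props LL) (bm_props LL))
    (im LL (sl_props LL) (im1 LL (sl_props LL))) (ker LL)

/-- Condition (C1) for extensions with noetherian kernel. -/
theorem c1_ext_noe : S_Ext := ext (fun LL _ => c1_cx LL) (frX (fre swi) cf_props)

/-- Condition (C1) for extensions of polycyclic by finite groups by groups of cohomological
dimension at most two, over noetherian rings. -/
theorem c1_ext (LL : Type) [CommRing LL] [IsNoetherianRing LL] {E Q : Type} [Group E] [Group Q]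
    (π : E →* Q) (hQ : CdLE2 Q) (hN : PolyC π.ker) : C1 (MonoidAlgebra LL E) :=
  c1_ext_noe LL E Q π hQ (poly noeF noeZ LL π.ker hN)

end Pool.Agent.WaldX
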