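import Pool.Agent.Lib.MP_8f66f0_al_WaldX.CdCx
import Pool.Agent.Lib.MP_8f66f0_al_WaldL.CdAm

/-! The cohomological dimension of an extension. -/

set_option autoImplicit false

namespace Pool.Agent.WaldX

open CategoryTheory Pool.Agent.Wald Pool.Agent.WaldT Pool.Agent.WaldL Finsupp

theorem pdLT_retract {R M N : Type} [Ring R] [AddCommGroup M] [Module R M] [AddCommGroup N]
    [Module R N] (i : M →ₗ[R] N) (p : N →ₗ[R] M) (h : ∀ x, p (i x) = x) {n : ℕ}
    (hN : PdLT R N n) : PdLT R M n :=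
  (Retract.mk (X := ModuleCat.of R M) (Y := ModuleCat.of R N) (ModuleCat.ofHom i)
    (ModuleCat.ofHom p) (by
      rw [← ModuleCat.ofHom_comp]
      exact congrArg ModuleCat.ofHom (LinearMap.ext h))).hasProjectiveDimensionLT n

section Ext

variable {E Q : Type} [Group E] [Group Q] (f : E →* Q)

/-- The set `J × Q` with the action of `E` through `f`. -/
def JQ (_ : E →* Q) (J : Type) : Type := J × Q

instance JQ.act (J : Type) : MulAction E (JQ f J) where
  smul g x := (x.1, f g * x.2)
  one_smul x := Prod.ext rfl (by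
    change f 1 * x.2 = x.2
    rw [map_one, one_mul])
  mul_smul g h x := Prod.ext rfl (by
    change f (g * h) * x.2 = f g * (f h * x.2)
    rw [map_mul, mul_assoc])

theorem JQ.stab (J : Type) (x : JQ f J) : MulAction.stabilizer E x ≤ f.ker := by
  intro g hg
  have h1 : (x.1, f g * x.2) = x := hg
  exact mul_eq_right.1 (congrArg Prod.snd h1)

/-- The coordinates of the free module. -/
noncomputable def jqEquiv (J : Type) : (JQ f J →₀ ℤ) ≃+ (J →₀ MonoidAlgebra ℤ Q) :=
  (Finsupp.curryAddEquiv (α := J) (β := Q) (M := ℤ)).trans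
    (Finsupp.mapRange.addEquiv (MonoidAlgebra.coeffAddEquiv (R := ℤ) (M := Q)).symm)

theorem jqEquiv_single (J : Type) (x : JQ f J) (n : ℤ) :
    jqEquiv f J (single x n) = single x.1 (MonoidAlgebra.single x.2 n) := by
  obtain ⟨j, q⟩ := x
  change Finsupp.mapRange (MonoidAlgebra.coeffAddEquiv (R := ℤ) (M := Q)).symm (map_zero _)
    (Finsupp.curry (single ((j, q) : J × Q) n)) = _
  rw [Finsupp.curry_single, Finsupp.mapRange_single]
  rfl

/-- The inflation of a free module is a permutation module. -/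
theorem infl_free (J : Type) :
    Nonempty (Per E (JQ f J) (Tv E) ≃ₗ[MonoidAlgebra ℤ E] Rst (inc f) (J →₀ MonoidAlgebra ℤ Q)) := by
  obtain ⟨F, hF⟩ := per_lin (E := E) (X := JQ f J) (Tv E) (Rst (inc f) (J →₀ MonoidAlgebra ℤ Q))
    ((jqEquiv f J).toAddMonoidHom.comp (Finsupp.mapRange.addMonoidHom
      (tau E).toAddMonoidHom)) (by
      intro g x z
      change jqEquiv f J (Finsupp.mapRange (tau E) (map_zero _) (single _ _)) =
        (inc f (MonoidAlgebra.single g (1 : ℤ))) •
          (jqEquiv f J (Finsupp.mapRange (tau E) (map_zero _) (single _ _)))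
      rw [Finsupp.mapRange_single, Finsupp.mapRange_single, tv_smul, jqEquiv_single,
        jqEquiv_single, Finsupp.smul_single, smul_eq_mul, MonoidAlgebra.mapDomainRingHom_apply,
        MonoidAlgebra.mapDomain_single, MonoidAlgebra.single_mul_single, one_mul]
      rfl)
  have hF' : ∀ c, F (pz E (JQ f J) c) = jqEquiv f J c := by
    intro c
    rw [pz_apply, hF]
    change jqEquiv f J (Finsupp.mapRange (tau E) (map_zero _)
      (Finsupp.mapRange (tau E).symm (map_zero _) c)) = _
    congr 1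
    ext x
    rw [Finsupp.mapRange_apply, Finsupp.mapRange_apply, AddEquiv.apply_symm_apply]
  refine ⟨LinearEquiv.ofBijective F ⟨?_, ?_⟩⟩
  · intro a b hab
    obtain ⟨a, rfl⟩ := (pz E (JQ f J)).surjective a
    obtain ⟨b, rfl⟩ := (pz E (JQ f J)).surjective b
    rw [hF', hF'] at hab
    rw [(jqEquiv f J).injective hab]
  · intro y
    obtain ⟨c, hc⟩ := (jqEquiv f J).surjective y
    exact ⟨pz E (JQ f J) c, by rw [hF', hc]⟩

/-- The projective dimension of an inflated module. -/
theorem infl_pd {n : ℕ} (hN : Wald.CdLE n f.ker) (m : ℕ) :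
    ∀ (M : Type) [AddCommGroup M] [Module (MonoidAlgebra ℤ Q) M],
      PdLT (MonoidAlgebra ℤ Q) M (m + 1) →
        PdLT (MonoidAlgebra ℤ E) (Rst (inc f) M) (n + m + 1) := by
  have hfree : ∀ J : Type, PdLT (MonoidAlgebra ℤ E) (Rst (inc f) (J →₀ MonoidAlgebra ℤ Q))
      (n + 1) := by
    intro J
    obtain ⟨e⟩ := infl_free f J
    exact (per_cd n fun x => cdLE_le (JQ.stab f J x) hN).equiv e
  induction m with
  | zero =>
    intro M _ _ hM
    obtain ⟨s, hs⟩ := Module.projective_def'.1 (pdLT_one.1 hM)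
    exact pdLT_retract (N := Rst (inc f) (M →₀ MonoidAlgebra ℤ Q)) (Rst.map (inc f) s)
      (Rst.map (inc f) (Finsupp.linearCombination (MonoidAlgebra ℤ Q) (id : M → M)))
      (fun x => LinearMap.congr_fun hs x) (hfree M)
  | succ m ih =>
    intro M _ _ hM
    let i : Rst (inc f) (LinearMap.ker (cover (MonoidAlgebra ℤ Q) M)) →ₗ[MonoidAlgebra ℤ E]
        Rst (inc f) (M →₀ MonoidAlgebra ℤ Q) :=
      Rst.map (inc f) (LinearMap.ker (cover (MonoidAlgebra ℤ Q) M)).subtype
    have hi : Function.Injective i := (Subtype.val_injective : Function.Injective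
      (LinearMap.ker (cover (MonoidAlgebra ℤ Q) M)).subtype)
    exact pdLT_X3 i (Rst.map (inc f) (cover (MonoidAlgebra ℤ Q) M)) hi
      (cover_exact (MonoidAlgebra ℤ Q) M) (cover_surj (MonoidAlgebra ℤ Q) M) (n + m + 1)
      (ih _ (cover_ker m hM)) ((hfree M).mono (by omega))

/-- The cohomological dimension of an extension. -/
theorem cdLE_ext {n m : ℕ} (hN : Wald.CdLE n f.ker) (hQ : Wald.CdLE m Q) :
    Wald.CdLE (n + m) E := by
  have h1 : PdLT (MonoidAlgebra ℤ E) (Rst (inc f) (Tv Q)) (n + m + 1) :=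
    infl_pd f hN m (Tv Q) hQ
  obtain ⟨e⟩ := rst_tv f
  exact h1.equiv e.symm

end Ext

/-- The cohomological dimension of a product. -/
theorem cdLE_prod {G H : Type} [Group G] [Group H] {n m : ℕ} (hG : Wald.CdLE n G)
    (hH : Wald.CdLE m H) : Wald.CdLE (n + m) (G × H) := by
  refine cdLE_ext (MonoidHom.snd G H) ?_ hH
  refine cdLE_sub ((MonoidHom.fst G H).comp (MonoidHom.snd G H).ker.subtype) ?_ hG
  rintro ⟨⟨a, b⟩, hb⟩ ⟨⟨a', b'⟩, hb'⟩ h
  have h1 : b = 1 := hb
  have h2 : b' = 1 := hb'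
  have h3 : a = a' := h
  subst h1 h2 h3
  rfl

end Pool.Agent.WaldX
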