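import Pool.Agent.Lib.MP_8f66f0_al_WaldX.Defs
import Pool.Agent.Lib.MP_8f66f0_al_WaldL.CdTree

/-! The cohomological dimension of a group with a permutation resolution of length two. -/

set_option autoImplicit false

namespace Pool.Agent.WaldX

open Pool.Agent.Wald Pool.Agent.WaldT Pool.Agent.WaldL Finsupp

theorem zl_add {X Y : Type} (d : X → (Y →₀ ℤ)) (c c' : X →₀ ℤ) :
    zl d (c + c') = zl d c + zl d c' :=
  Finsupp.sum_add_index' (fun _ => zero_smul _ _) (fun _ _ _ => add_smul _ _ _)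

theorem zl_zero {X Y : Type} (d : X → (Y →₀ ℤ)) : zl d 0 = 0 := Finsupp.sum_zero_index

theorem zl_single {X Y : Type} (d : X → (Y →₀ ℤ)) (x : X) (n : ℤ) :
    zl d (single x n) = n • d x := Finsupp.sum_single_index (zero_smul _ _)

theorem zw_add {X : Type} (ε : X → ℤ) (c c' : X →₀ ℤ) : zw ε (c + c') = zw ε c + zw ε c' :=
  Finsupp.sum_add_index' (fun _ => zero_mul _) (fun _ _ _ => add_mul _ _ _)

theorem zw_zero {X : Type} (ε : X → ℤ) : zw ε 0 = 0 := Finsupp.sum_zero_index

theorem zw_single {X : Type} (ε : X → ℤ) (x : X) (n : ℤ) : zw ε (single x n) = n * ε x :=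
  Finsupp.sum_single_index (zero_mul _)

section Pz

variable (E : Type) [Group E]

/-- The coordinate of the trivial module. -/
noncomputable def tau : Tv E ≃+ ℤ := (Representation.trivial ℤ E ℤ).asModuleEquiv.toAddEquiv

/-- Chains as elements of the permutation module. -/
noncomputable def pz (X : Type) [MulAction E X] : (X →₀ ℤ) ≃+ Per E X (Tv E) :=
  (Finsupp.mapRange.addEquiv (tau E).symm).trans (per E (Tv E))

variable {E}

theorem pz_apply {X : Type} [MulAction E X] (c : X →₀ ℤ) :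
    pz E X c = per E (Tv E) (c.mapRange (tau E).symm (map_zero _)) := rfl

theorem perRep_tv {X : Type} [MulAction E X] (g : E) (v : X →₀ Tv E) :
    perRep E X (Tv E) g v = v.mapDomain (g • ·) := by
  induction v using Finsupp.induction_linear with
  | zero => rw [map_zero, Finsupp.mapDomain_zero]
  | add v w hv hw => rw [map_add, Finsupp.mapDomain_add, hv, hw]
  | single x z => rw [perRep_single, Finsupp.mapDomain_single, tv_smul]

theorem pz_smul {X : Type} [MulAction E X] (g : E) (c : X →₀ ℤ) :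
    (MonoidAlgebra.single g (1 : ℤ) : MonoidAlgebra ℤ E) • pz E X c =
      pz E X (c.mapDomain (g • ·)) := by
  rw [pz_apply, pz_apply, per_smul, perRep_tv, Finsupp.mapDomain_mapRange _ _ _ _ (map_add _)]

theorem per_eq_pz {X : Type} [MulAction E X] (x : X) (z : Tv E) :
    per E (Tv E) (single x z) = pz E X (single x (tau E z)) := by
  rw [pz_apply, Finsupp.mapRange_single, AddEquiv.symm_apply_apply]

/-- The linear extension of an equivariant family of chains. -/
theorem pz_lin {X Y : Type} [MulAction E X] [MulAction E Y] (d : X → (Y →₀ ℤ))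
    (hd : ∀ (g : E) (x : X), d (g • x) = (d x).mapDomain fun y => g • y) :
    ∃ F : Per E X (Tv E) →ₗ[MonoidAlgebra ℤ E] Per E Y (Tv E), ∀ c,
      F (pz E X c) = pz E Y (zl d c) := by
  let z : (X →₀ ℤ) →+ (Y →₀ ℤ) :=
    { toFun := zl d
      map_zero' := zl_zero d
      map_add' := zl_add d }
  have hsm : ∀ (g : E) (n : ℤ) (c : Y →₀ ℤ), (n • c).mapDomain (g • ·) =
      n • c.mapDomain (g • ·) := fun g n c =>
    map_zsmul (Finsupp.mapDomain.addMonoidHom (M := ℤ) (fun y : Y => g • y)) n c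
  obtain ⟨F, hF⟩ := per_lin (E := E) (X := X) (Tv E) (Per E Y (Tv E))
    ((pz E Y).toAddMonoidHom.comp (z.comp (Finsupp.mapRange.addMonoidHom
      (tau E).toAddMonoidHom))) (by
      intro g x v
      change pz E Y (zl d (Finsupp.mapRange (tau E) (map_zero _) (single _ _))) =
        _ • pz E Y (zl d (Finsupp.mapRange (tau E) (map_zero _) (single _ _)))
      rw [Finsupp.mapRange_single, Finsupp.mapRange_single, zl_single, zl_single, pz_smul, tv_smul,
        hd, hsm])
  refine ⟨F, fun c => ?_⟩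
  rw [pz_apply, hF]
  change pz E Y (zl d (Finsupp.mapRange (tau E) (map_zero _)
    (Finsupp.mapRange (tau E).symm (map_zero _) c))) = _
  congr 2
  ext x
  rw [Finsupp.mapRange_apply, Finsupp.mapRange_apply, AddEquiv.apply_symm_apply]

/-- The weight map. -/
theorem pz_wt {X : Type} [MulAction E X] (ε : X → ℤ) (hε : ∀ (g : E) (x : X), ε (g • x) = ε x) :
    ∃ F : Per E X (Tv E) →ₗ[MonoidAlgebra ℤ E] Tv E, ∀ c,
      F (pz E X c) = (tau E).symm (zw ε c) := by
  let z : (X →₀ ℤ) →+ ℤ :=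
    { toFun := zw ε
      map_zero' := zw_zero ε
      map_add' := zw_add ε }
  obtain ⟨F, hF⟩ := per_lin (E := E) (X := X) (Tv E) (Tv E)
    ((tau E).symm.toAddMonoidHom.comp (z.comp (Finsupp.mapRange.addMonoidHom
      (tau E).toAddMonoidHom))) (by
      intro g x v
      change (tau E).symm (zw ε (Finsupp.mapRange (tau E) (map_zero _) (single _ _))) =
        _ • (tau E).symm (zw ε (Finsupp.mapRange (tau E) (map_zero _) (single _ _)))
      rw [Finsupp.mapRange_single, Finsupp.mapRange_single, zw_single, zw_single, tv_smul,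
        tv_smul, hε])
  refine ⟨F, fun c => ?_⟩
  rw [pz_apply, hF]
  change (tau E).symm (zw ε (Finsupp.mapRange (tau E) (map_zero _)
    (Finsupp.mapRange (tau E).symm (map_zero _) c))) = _
  congr 2
  ext x
  rw [Finsupp.mapRange_apply, Finsupp.mapRange_apply, AddEquiv.apply_symm_apply]

end Pz

/-- A group with a permutation resolution of length two, stabilizers of cohomological dimension at
most `n`. -/
theorem cdLE_cx {E : Type} [Group E] (T : Cx E) (n : ℕ)
    (h₀ : ∀ x : T.X₀, Wald.CdLE n (MulAction.stabilizer E x))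
    (h₁ : ∀ x : T.X₁, Wald.CdLE n (MulAction.stabilizer E x))
    (h₂ : ∀ x : T.X₂, Wald.CdLE n (MulAction.stabilizer E x)) : Wald.CdLE (n + 2) E := by
  obtain ⟨D₂, hD₂⟩ := pz_lin T.d₂ T.d₂_smul
  obtain ⟨D₁, hD₁⟩ := pz_lin T.d₁ T.d₁_smul
  obtain ⟨D₀, hD₀⟩ := pz_wt T.ε T.ε_smul
  have p₂ := per_cd n h₂
  have p₁ := per_cd n h₁
  have p₀ := per_cd n h₀
  have q : PdLT (MonoidAlgebra ℤ E) (LinearMap.range D₁) (n + 2) := by
    refine pdLT_X3 D₂ D₁.rangeRestrict ?_ ?_ D₁.surjective_rangeRestrict (n + 1) p₂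
      (p₁.mono (by omega))
    · rw [injective_iff_map_eq_zero]
      intro v hv
      obtain ⟨v, rfl⟩ := (pz E T.X₂).surjective v
      rw [hD₂, map_eq_zero_iff _ (pz E T.X₁).injective] at hv
      rw [T.inj v hv, map_zero]
    · intro y
      obtain ⟨y, rfl⟩ := (pz E T.X₁).surjective y
      rw [← Subtype.coe_inj]
      change D₁ (pz E T.X₁ y) = 0 ↔ _
      rw [hD₁, map_eq_zero_iff _ (pz E T.X₀).injective]
      constructor
      · intro hy
        obtain ⟨b, hb⟩ := T.ex₁ y hy
        exact ⟨pz E T.X₂ b, by rw [hD₂, hb]⟩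
      · rintro ⟨b, hb⟩
        obtain ⟨b, rfl⟩ := (pz E T.X₂).surjective b
        rw [hD₂] at hb
        rw [← (pz E T.X₁).injective hb, T.d_d]
  refine pdLT_X3 (LinearMap.range D₁).subtype D₀ Subtype.val_injective ?_ ?_ (n + 2) q
    (p₀.mono (by omega))
  · intro y
    obtain ⟨y, rfl⟩ := (pz E T.X₀).surjective y
    rw [hD₀, map_eq_zero_iff _ (tau E).symm.injective]
    constructor
    · intro hy
      obtain ⟨b, hb⟩ := T.ex₀ y hy
      exact ⟨⟨pz E T.X₀ y, pz E T.X₁ b, by rw [hD₁, hb]⟩, rfl⟩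
    · rintro ⟨⟨w, b, hb'⟩, hb⟩
      obtain ⟨b, rfl⟩ := (pz E T.X₁).surjective b
      have hb1 : w = pz E T.X₀ y := hb
      rw [hb1, hD₁] at hb'
      rw [← (pz E T.X₀).injective hb', T.ε_d]
  · intro t
    obtain ⟨c, hc⟩ := T.surj
    refine ⟨pz E T.X₀ ((tau E t) • c), ?_⟩
    have h1 : zw T.ε (tau E t • c) = tau E t * zw T.ε c := by
      have h2 := map_zsmul ({ toFun := zw T.ε, map_zero' := zw_zero T.ε, map_add' := zw_add T.ε } :
        (T.X₀ →₀ ℤ) →+ ℤ) (tau E t) c
      exact h2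
    rw [hD₀, h1, hc, mul_one, AddEquiv.symm_apply_apply]

end Pool.Agent.WaldX
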