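import Mathlib
import Pool.Agent.Lib.MP_8f66f0_al_WaldTL.Defs

/-! Definitions for edge groups with a permutation resolution of length two. -/

set_option autoImplicit false

namespace Pool.Agent.WaldX

open Pool.Agent.Wald Pool.Agent.WaldT Pool.Agent.WaldTL Finsupp

/-- The linear extension of a family of integral chains. -/
noncomputable def zl {X Y : Type} (d : X → (Y →₀ ℤ)) (c : X →₀ ℤ) : Y →₀ ℤ :=
  c.sum fun x n => n • d x

/-- The weight of an integral chain. -/
noncomputable def zw {X : Type} (ε : X → ℤ) (c : X →₀ ℤ) : ℤ := c.sum fun x n => n * ε x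

/-- A resolution `0 → ℤX₂ → ℤX₁ → ℤX₀ → ℤ → 0` of the trivial `ℤE`-module by permutation modules.
For instance the cellular chain complex of an acyclic complex of dimension two on which `E` acts
such that the stabilizers of the cells preserve their orientations. -/
structure Cx (E : Type) [Group E] where
  X₀ : Type
  X₁ : Type
  X₂ : Type
  act₀ : MulAction E X₀
  act₁ : MulAction E X₁
  act₂ : MulAction E X₂
  ε : X₀ → ℤ
  d₁ : X₁ → (X₀ →₀ ℤ)
  d₂ : X₂ → (X₁ →₀ ℤ)
  ε_smul : ∀ (g : E) (x : X₀), ε (g • x) = ε x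
  d₁_smul : ∀ (g : E) (x : X₁), d₁ (g • x) = (d₁ x).mapDomain fun y => g • y
  d₂_smul : ∀ (g : E) (x : X₂), d₂ (g • x) = (d₂ x).mapDomain fun y => g • y
  ε_d : ∀ c, zw ε (zl d₁ c) = 0
  d_d : ∀ c, zl d₁ (zl d₂ c) = 0
  inj : ∀ c, zl d₂ c = 0 → c = 0
  ex₁ : ∀ c, zl d₁ c = 0 → ∃ b, zl d₂ b = c
  ex₀ : ∀ c, zw ε c = 0 → ∃ b, zl d₁ b = c
  surj : ∃ c, zw ε c = 1

attribute [instance] Cx.act₀ Cx.act₁ Cx.act₂

section Chains

variable (LL : Type) {E X Y : Type} [CommRing LL] [Group E]

/-- The map of chains with coefficients in `LL[E]` given by a family of integral chains. -/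
noncomputable def bm (d : X → (Y →₀ ℤ)) :
    (X →₀ MonoidAlgebra LL E) →ₗ[MonoidAlgebra LL E] (Y →₀ MonoidAlgebra LL E) :=
  Finsupp.linearCombination (MonoidAlgebra LL E) fun x =>
    (d x).mapRange (fun n : ℤ => (n : MonoidAlgebra LL E)) Int.cast_zero

/-- The weight of a chain with coefficients in `LL[E]`. -/
noncomputable def wt (ε : X → ℤ) : (X →₀ MonoidAlgebra LL E) →ₗ[MonoidAlgebra LL E]
    MonoidAlgebra LL E :=
  Finsupp.linearCombination (MonoidAlgebra LL E) fun x => (ε x : MonoidAlgebra LL E)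

variable {LL} [MulAction E X]

open Classical in
/-- The slice of `z` at the point `x`: its coefficient at `g` is the coefficient of `z (g⁻¹ x)` at
`g`; so `z` is the sum of the `dx x (sl z x)`. -/
noncomputable def sl (z : X →₀ MonoidAlgebra LL E) (x : X) : MonoidAlgebra LL E :=
  z.sum fun x' r => MonoidAlgebra.ofCoeff (r.coeff.filter fun g => g • x' = x)

end Chains

end Pool.Agent.WaldX
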