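import Pool.Agent.Lib.MP_8f66f0_al_WaldX.SpecY

/-! A group of cohomological dimension at most two has a free permutation resolution. -/

set_option autoImplicit false

namespace Pool.Agent.WaldX

open Pool.Agent.Wald Pool.Agent.WaldT Pool.Agent.WaldTL Pool.Agent.Ind Finsupp

private theorem FrX_free {B Q : Type} [Group Q] (x : Fr B Q) (g : Q) (h : g • x = x) : g = 1 := by
  have h1 : g * x.q = x.q := congrArg Fr.q h
  exact mul_eq_right.1 h1

private theorem FrX_zw_add {X : Type} (ε : X → ℤ) (c c' : X →₀ ℤ) :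
    zw ε (c + c') = zw ε c + zw ε c' := by
  unfold zw
  exact Finsupp.sum_add_index' (fun x => zero_mul (ε x)) (fun x m n => add_mul m n (ε x))

private theorem FrX_sum_add {Q : Type} [Group Q] (r r' : MonoidAlgebra ℤ Q) :
    (r + r').coeff.sum (fun _ n => n) = r.coeff.sum (fun _ n => n) +
      r'.coeff.sum (fun _ n => n) := by
  rw [MonoidAlgebra.coeff_add]
  exact Finsupp.sum_add_index' (fun _ => rfl) (fun _ _ _ => rfl)

private theorem FrX_wt {Q : Type} [Group Q] (h2 : S_Cf) (z : Unit →₀ MonoidAlgebra ℤ Q) :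
    zw (fun _ : Fr Unit Q => 1) (cf Unit Q z) = (z ()).coeff.sum (fun _ n => n) := by
  obtain ⟨g1, -, -, -⟩ := h2 Unit Unit Q
  induction z using Finsupp.induction_linear with
  | zero =>
    rw [map_zero, Finsupp.zero_apply]
    unfold zw
    rw [Finsupp.sum_zero_index]
    exact (Finsupp.sum_zero_index (h := fun _ n => n)).symm
  | add f g hf hg => rw [map_add, FrX_zw_add, hf, hg, Finsupp.add_apply, FrX_sum_add]
  | single b r =>
    have e : (single b r : Unit →₀ MonoidAlgebra ℤ Q) () = r := Finsupp.single_eq_same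
    rw [e]
    clear e
    induction r using MonoidAlgebra.induction_linear with
    | zero =>
      rw [Finsupp.single_zero, map_zero]
      unfold zw
      rw [Finsupp.sum_zero_index]
      exact (Finsupp.sum_zero_index (h := fun _ n => n)).symm
    | add f g hf hg => rw [Finsupp.single_add, map_add, FrX_zw_add, hf, hg, FrX_sum_add]
    | single q n =>
      rw [g1]
      unfold zw
      rw [Finsupp.sum_single_index (zero_mul _), mul_one, MonoidAlgebra.coeff_single]
      exact (Finsupp.sum_single_index (h := fun _ n => n) rfl).symm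

theorem frX (h1 : S_Fre) (h2 : S_Cf) : S_FrX := by
  intro Q _ hQ
  obtain ⟨B₁, B₂, D₁, D₂, k1, k2, k3⟩ := h1 Q hQ
  have hcf : ∀ B B' : Type, (∀ (g : Q) (z : B →₀ MonoidAlgebra ℤ Q),
      cf B Q ((MonoidAlgebra.single g (1 : ℤ) : MonoidAlgebra ℤ Q) • z) =
        (cf B Q z).mapDomain fun x => g • x) := fun B B' => (h2 B B' Q).2.2.1
  -- the boundary maps
  have hzl : ∀ (B B' : Type)
      (D : (B →₀ MonoidAlgebra ℤ Q) →ₗ[MonoidAlgebra ℤ Q] (B' →₀ MonoidAlgebra ℤ Q))
      (z : B →₀ MonoidAlgebra ℤ Q), zl (fun x : Fr B Q => cf B' Q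
        ((MonoidAlgebra.single x.q (1 : ℤ) : MonoidAlgebra ℤ Q) • D (single x.b 1)))
          (cf B Q z) = cf B' Q (D z) := fun B B' D z => ((h2 B B' Q).2.2.2 D z).symm
  have hsur : ∀ (B : Type) (c : Fr B Q →₀ ℤ), ∃ z, cf B Q z = c := fun B =>
    (h2 B B Q).2.1.2
  have hinj : ∀ (B : Type), Function.Injective (cf B Q) := fun B => (h2 B B Q).2.1.1
  have heq : ∀ (B B' : Type)
      (D : (B →₀ MonoidAlgebra ℤ Q) →ₗ[MonoidAlgebra ℤ Q] (B' →₀ MonoidAlgebra ℤ Q))
      (g : Q) (x : Fr B Q), cf B' Q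
        ((MonoidAlgebra.single (g • x).q (1 : ℤ) : MonoidAlgebra ℤ Q) •
          D (single (g • x).b 1)) =
      (cf B' Q ((MonoidAlgebra.single x.q (1 : ℤ) : MonoidAlgebra ℤ Q) •
        D (single x.b 1))).mapDomain fun y => g • y := by
    intro B B' D g x
    rw [← hcf B' B', smul_smul, MonoidAlgebra.single_mul_single, one_mul]
    rfl
  refine ⟨{
    X₀ := Fr Unit Q
    X₁ := Fr B₁ Q
    X₂ := Fr B₂ Q
    act₀ := inferInstance
    act₁ := inferInstance
    act₂ := inferInstance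
    ε := fun _ => 1
    d₁ := fun x => cf Unit Q
      ((MonoidAlgebra.single x.q (1 : ℤ) : MonoidAlgebra ℤ Q) • D₁ (single x.b 1))
    d₂ := fun x => cf B₁ Q
      ((MonoidAlgebra.single x.q (1 : ℤ) : MonoidAlgebra ℤ Q) • D₂ (single x.b 1))
    ε_smul := fun _ _ => rfl
    d₁_smul := heq B₁ Unit D₁
    d₂_smul := heq B₂ B₁ D₂
    ε_d := ?_
    d_d := ?_
    inj := ?_
    ex₁ := ?_
    ex₀ := ?_
    surj := ?_ }, FrX_free, FrX_free, FrX_free⟩
  · intro c
    obtain ⟨z, rfl⟩ := hsur B₁ c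
    rw [hzl, FrX_wt h2]
    exact (k3 _).1 ⟨z, rfl⟩
  · intro c
    obtain ⟨z, rfl⟩ := hsur B₂ c
    rw [hzl, hzl, (k2 _).2 ⟨z, rfl⟩, map_zero]
  · intro c hc
    obtain ⟨z, rfl⟩ := hsur B₂ c
    rw [hzl] at hc
    have e1 : D₂ z = 0 := hinj B₁ (hc.trans (map_zero _).symm)
    have e2 : z = 0 := k1 (e1.trans (map_zero _).symm)
    rw [e2, map_zero]
  · intro c hc
    obtain ⟨z, rfl⟩ := hsur B₁ c
    rw [hzl] at hc
    have e1 : D₁ z = 0 := hinj Unit (hc.trans (map_zero _).symm)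
    obtain ⟨w, hw⟩ := (k2 z).1 e1
    exact ⟨cf B₂ Q w, by rw [hzl, hw]⟩
  · intro c hc
    obtain ⟨z, rfl⟩ := hsur Unit c
    rw [FrX_wt h2] at hc
    obtain ⟨w, hw⟩ := (k3 z).2 hc
    exact ⟨cf B₁ Q w, by rw [hzl, hw]⟩
  · refine ⟨single ⟨(), 1⟩ 1, ?_⟩
    unfold zw
    rw [Finsupp.sum_single_index (zero_mul _), mul_one]

end Pool.Agent.WaldX
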