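import Pool.Agent.Lib.MP_8f66f0_al_WaldX.Spec
import Pool.Agent.Lib.MP_8f66f0_al_WaldTL.DxSl

/-!
# WaldX, module Sl: slices
-/

set_option autoImplicit false

namespace Pool.Agent.WaldX

open Pool.Agent.Wald Pool.Agent.WaldT Pool.Agent.WaldTL Finsupp

namespace SlAux

variable {LL E X : Type} [CommRing LL] [Group E] [MulAction E X]

theorem sl_coeff (z : X →₀ MonoidAlgebra LL E) (x : X) (g : E) :
    (sl z x).coeff g = (z (g⁻¹ • x)).coeff g := by
  classical
  unfold sl Finsupp.sum
  rw [MonoidAlgebra.coeff_sum, Finsupp.finsetSum_apply]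
  have h1 : ∀ x' ∈ z.support, (MonoidAlgebra.ofCoeff ((z x').coeff.filter fun g => g • x' = x) :
      MonoidAlgebra LL E).coeff g = if g⁻¹ • x = x' then (z x').coeff g else 0 := by
    intro x' _
    change ((z x').coeff.filter fun g => g • x' = x) g = _
    rw [Finsupp.filter_apply]
    by_cases h : g • x' = x
    · rw [if_pos h, if_pos]
      rw [← h, inv_smul_smul]
    · rw [if_neg h, if_neg]
      intro h2
      exact h (by rw [← h2, smul_inv_smul])
  rw [Finset.sum_congr rfl h1, Finset.sum_ite_eq]
  split_ifs with h
  · rfl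
  · rw [Finsupp.notMem_support_iff.1 h]
    rfl

end SlAux

open SlAux DxSlAux in
theorem sl_props (LL : Type) [CommRing LL] : S_Sl LL := by
  intro E X _ _
  classical
  refine ⟨?_, ?_, ?_, ?_, ?_⟩
  · intro z z' x
    apply MonoidAlgebra.coeff_injective
    ext g
    rw [sl_coeff, MonoidAlgebra.coeff_add, Finsupp.add_apply, Finsupp.add_apply, sl_coeff,
      sl_coeff, MonoidAlgebra.coeff_add, Finsupp.add_apply]
  · intro x y r
    constructor
    · rintro rfl
      apply MonoidAlgebra.coeff_injective
      ext g
      rw [sl_coeff, dx_coeff, smul_inv_smul, if_pos rfl]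
    · intro h
      apply MonoidAlgebra.coeff_injective
      ext g
      rw [sl_coeff, dx_coeff, smul_inv_smul, if_neg (Ne.symm h)]
      rfl
  · intro z
    have hS : ∀ (x : X) (g : E), (z (g⁻¹ • x)).coeff g ≠ 0 →
        x ∈ z.support.biUnion fun x' => ((z x').coeff.support).image fun g => g • x' := by
      intro x g h
      rw [Finset.mem_biUnion]
      refine ⟨g⁻¹ • x, ?_, ?_⟩
      · rw [Finsupp.mem_support_iff]
        intro h2
        rw [h2] at h
        exact h rfl
      · rw [Finset.mem_image]
        exact ⟨g, Finsupp.mem_support_iff.2 h, smul_inv_smul g x⟩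
    refine ⟨z.support.biUnion fun x' => ((z x').coeff.support).image fun g => g • x', ?_, ?_⟩
    · intro x hx
      apply MonoidAlgebra.coeff_injective
      ext g
      rw [sl_coeff]
      by_contra h
      exact hx (hS x g h)
    · intro S' hS'
      ext x' : 1
      apply MonoidAlgebra.coeff_injective
      ext g
      rw [sum_coeff, sl_coeff, inv_smul_smul]
      by_cases h : (z x').coeff g = 0
      · rw [h, ite_self]
      · rw [if_pos]
        apply hS'
        apply hS (g • x') g
        rw [inv_smul_smul]
        exact h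
  · intro g a z x
    apply MonoidAlgebra.coeff_injective
    ext h
    rw [sl_coeff, MonoidAlgebra.coeff_single_mul_apply, sl_coeff, Finsupp.smul_apply, smul_eq_mul,
      MonoidAlgebra.coeff_single_mul_apply, mul_inv_rev, inv_inv, mul_smul]
  · intro z x h
    apply MonoidAlgebra.coeff_injective
    ext g
    rw [sl_coeff, h]

end Pool.Agent.WaldX
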