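import Pool.Agent.Lib.MP_8f66f0_al_WaldX.Spec
import Pool.Agent.Lib.MP_8f66f0_al_Wald.PdN
import Pool.Agent.Lib.MP_8f66f0_al_Ind.Defs

/-! Statements with complete proofs: extensions of polycyclic groups by groups of cohomological
dimension at most two are edge groups. -/

set_option autoImplicit false

namespace Pool.Agent.WaldX

open Pool.Agent.Wald Pool.Agent.WaldT Pool.Agent.WaldTL Pool.Agent.Ind Finsupp

/-- The free `Q`-set with basis `B`. -/
structure Fr (B Q : Type) where
  b : B
  q : Q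

instance (B Q : Type) [Group Q] : MulAction Q (Fr B Q) where
  smul g x := ⟨x.b, g * x.q⟩
  one_smul x := by
    cases x
    exact congrArg _ (one_mul _)
  mul_smul g h x := by
    cases x
    exact congrArg _ (mul_assoc _ _ _)

/-- The free `ℤQ`-module with basis `B` as a free abelian group: `single b (single q n)` corresponds
to `single ⟨b, q⟩ n`. -/
noncomputable def cf (B Q : Type) [Group Q] : (B →₀ MonoidAlgebra ℤ Q) →+ (Fr B Q →₀ ℤ) :=
  Finsupp.liftAddHom fun b => (Finsupp.mapDomain.addMonoidHom fun q : Q => (⟨b, q⟩ : Fr B Q)).comp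
    (MonoidAlgebra.coeffAddEquiv (R := ℤ) (M := Q)).toAddMonoidHom

/-- The complex with action of `E` through a homomorphism. -/
def Cx.infl {E Q : Type} [Group E] [Group Q] (π : E →* Q) (T : Cx Q) : Cx E where
  X₀ := T.X₀
  X₁ := T.X₁
  X₂ := T.X₂
  act₀ := MulAction.compHom _ π
  act₁ := MulAction.compHom _ π
  act₂ := MulAction.compHom _ π
  ε := T.ε
  d₁ := T.d₁
  d₂ := T.d₂
  ε_smul g x := T.ε_smul (π g) x
  d₁_smul g x := T.d₁_smul (π g) x
  d₂_smul g x := T.d₂_smul (π g) x
  ε_d := T.ε_d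
  d_d := T.d_d
  inj := T.inj
  ex₁ := T.ex₁
  ex₀ := T.ex₀
  surj := T.surj

/-- Y1 (Swi). The swindle of Eilenberg.
PROOF. Let `π : (K →₀ R) → K` be the linear combination map and `s` a section (projectivity,
`Module.projective_def`), `K' = ker π`. `G = (K →₀ R)` is isomorphic to `K' × K` (`x ↦ (x - s (π x),
π x)`). `B = ℕ × K`: `(B →₀ R) ≃ (ℕ →₀ G)` (`Finsupp.curryLinearEquiv` or `finsuppProdLEquiv`)
`≃ (ℕ →₀ K' × K)`. And `K × (ℕ →₀ K' × K) ≃ (ℕ →₀ K' × K)` by `(k, f) ↦ f'`, `(f' 0).2 = k`, `(f' (n +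
1)).2 = (f n).2`, `(f' n).1 = (f n).1`. (Convenient: `(ℕ →₀ K' × K) ≃ (ℕ →₀ K') × (ℕ →₀ K)` and
`K × (ℕ →₀ K) ≃ (Option ℕ →₀ K) ≃ (ℕ →₀ K)`, see `Finsupp.optionEquiv` or build it by hand.) -/
def S_Swi : Prop :=
  ∀ (R K : Type) [Ring R] [AddCommGroup K] [Module R K] [Module.Projective R K],
    ∃ B : Type, Nonempty ((K × (B →₀ R)) ≃ₗ[R] (B →₀ R))

/-- Y2 (Fre). A free resolution of length two.
PROOF. `M` = the trivial module `(Representation.trivial ℤ Q ℤ).asModule`; the map `ε : R → M`,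
`r ↦ r • 1` is onto, `e (single q n) = n`. `K₀ = ker ε`; `∂ : (K₀ →₀ R) → K₀ ⊂ R` the linear combination
map. `K₁ = ker ∂` is projective by dimension shifting (`CdLE2 Q` is `HasProjectiveDimensionLE M 2`;
see `Resol_sh` in Wald/Resol.lean, twice). By Y1 there is `B` with `φ : K₁ × (B →₀ R) ≃ (B →₀ R)`.
`B₁ = K₀ ⊕ B`, `(B₁ →₀ R) ≃ (K₀ →₀ R) × (B →₀ R)` (`Finsupp.sumFinsuppLEquivProdFinsupp`). `D₁ (f, g)
= ∂ f`, `D₂ = (incl × id) ∘ φ⁻¹`, `B₂ = B`. -/
def S_Fre : Prop :=
  ∀ (Q : Type) [Group Q], CdLE2 Q →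
    ∃ (B₁ B₂ : Type) (D₁ : (B₁ →₀ MonoidAlgebra ℤ Q) →ₗ[MonoidAlgebra ℤ Q]
        (Unit →₀ MonoidAlgebra ℤ Q))
      (D₂ : (B₂ →₀ MonoidAlgebra ℤ Q) →ₗ[MonoidAlgebra ℤ Q] (B₁ →₀ MonoidAlgebra ℤ Q)),
      Function.Injective D₂ ∧ Function.Exact D₂ D₁ ∧
      ∀ z : Unit →₀ MonoidAlgebra ℤ Q, z ∈ LinearMap.range D₁ ↔
        (z ()).coeff.sum (fun _ n => n) = 0

/-- Y3 (Cf). Properties of `cf`.
PROOF. (1) `Finsupp.liftAddHom_apply_single`, `mapDomain_single`. (2) bijective: the inverse maps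
`single ⟨b, q⟩ n` to `single b (single q n)`. (3) additivity, then `z = single b (single q n)`. (4) both
sides additive in `z`; for `z = single b (single q n) = (n • single q 1) • single b 1`, so `D z =
n • (single q 1 • D (single b 1))`, and (3). -/
def S_Cf : Prop :=
  ∀ (B B' Q : Type) [Group Q],
    (∀ (b : B) (q : Q) (n : ℤ), cf B Q (single b (MonoidAlgebra.single q n)) = single ⟨b, q⟩ n) ∧
    Function.Bijective (cf B Q) ∧
    (∀ (g : Q) (z : B →₀ MonoidAlgebra ℤ Q),
      cf B Q ((MonoidAlgebra.single g (1 : ℤ) : MonoidAlgebra ℤ Q) • z) =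
        (cf B Q z).mapDomain fun x => g • x) ∧
    ∀ (D : (B →₀ MonoidAlgebra ℤ Q) →ₗ[MonoidAlgebra ℤ Q] (B' →₀ MonoidAlgebra ℤ Q))
      (z : B →₀ MonoidAlgebra ℤ Q),
      cf B' Q (D z) = zl (fun x : Fr B Q => cf B' Q
        ((MonoidAlgebra.single x.q (1 : ℤ) : MonoidAlgebra ℤ Q) • D (single x.b 1))) (cf B Q z)

/-- Y4 (FrX). A group of cohomological dimension at most two has a free permutation resolution.
PROOF. From Y2: `X₀ = Fr Unit Q`, `X₁ = Fr B₁ Q`, `X₂ = Fr B₂ Q`, `ε = 1`, `d_i x = cf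
(single x.q 1 • D_i (single x.b 1))`. Equivariance: Y3 (3) (`single (g * q) 1 = single g 1 * single q
1`). `zl d_i (cf z) = cf (D_i z)` (Y3 (4)), `cf` is bijective, and the weight of `cf z` is
`(z ()).coeff.sum (fun _ n => n)` for `z : Unit →₀ ℤQ` (additivity and Y3 (1)). So all axioms translate. -/
def S_FrX : Prop :=
  ∀ (Q : Type) [Group Q], CdLE2 Q → ∃ T : Cx Q, (∀ (x : T.X₀) (g : Q), g • x = x → g = 1) ∧
    (∀ (x : T.X₁) (g : Q), g • x = x → g = 1) ∧ ∀ (x : T.X₂) (g : Q), g • x = x → g = 1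

/-- Y5 (Ext). (C1) for extensions.
PROOF. `T` from Y4, `T' = T.infl π`. The stabilizer of every point of `T'` is `π.ker` (as a subgroup:
`π g • x = x ↔ π g = 1`). A left noetherian ring satisfies `KerFG` (submodules of `Fin a → S` are
finitely generated). Apply `S_C1X`. -/
def S_Ext : Prop :=
  ∀ (LL E Q : Type) [CommRing LL] [Group E] [Group Q] (π : E →* Q), CdLE2 Q →
    IsNoetherianRing (MonoidAlgebra LL π.ker) → C1 (MonoidAlgebra LL E)

/-- Poly-(cyclic or finite) groups. -/
inductive PolyC : (N : Type) → [Group N] → Prop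
  | triv {N : Type} [Group N] [Subsingleton N] : PolyC N
  | cyc {N : Type} [Group N] (π : N →* Multiplicative ℤ) : PolyC π.ker → PolyC N
  | fin {N : Type} [Group N] (H : Subgroup N) [H.FiniteIndex] : PolyC H → PolyC N

/-- Y6 (NoeF). Finite index.
PROOF. `LL[N]` is generated by a finite set of representatives of the cosets `H g` as a left
`LL[H]`-module (scalars through the inclusion), so it is a noetherian `LL[H]`-module, and every
ascending chain of left ideals of `LL[N]` is a chain of `LL[H]`-submodules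
(`isNoetherian_of_tower` or directly: a left ideal is a finitely generated `LL[H]`-submodule). -/
def S_NoeF : Prop :=
  ∀ (LL N : Type) [CommRing LL] [Group N] (H : Subgroup N) [H.FiniteIndex],
    IsNoetherianRing (MonoidAlgebra LL H) → IsNoetherianRing (MonoidAlgebra LL N)

/-- Y7 (NoeZ). Skew Laurent polynomials (Hilbert basis theorem).
PROOF. `K = π.ker`, `A = LL[K] ⊂ R = LL[N]`. If `π = 1` then `K = N`. Otherwise let `t` be an element
whose image generates the range of `π` (a subgroup of `ℤ`), `π t = c ≠ 0`: `R` is the direct sum of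
the `A t^i`, `i ∈ ℤ`, `t A = A t`. Let `I` be a left ideal. For `n : ℕ` let `J n` be the set of all
`a ∈ A` such that `I` contains an element `t^n a + (sum of t^i a_i, i < n, i ≥ 0)` (coefficients on the
right of `t^n`): it is closed under addition, and under left multiplication by `b ∈ A`: multiply by
`t^n b t^(-n) ∈ A` from the left. `J n ⊂ J (n + 1)` (multiply by `t` from the left). So `J n = J m` for
`n ≥ m`, and `J 0, .., J m` are finitely generated left ideals: choose generators `a_(n, k)` and elements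
`f_(n, k) ∈ I` with leading term `t^n a_(n, k)`. Claim: they generate `I`. Let `f ∈ I`, not zero;
multiplying by a power of `t` from the left we may assume that `f` has only nonnegative exponents.
Induction on the degree `n`: the leading coefficient `a ∈ J n`; if `n ≤ m`, `a = ∑ b_k a_(n,k)` and
`f - ∑ (t^n b_k t^(-n)) f_(n,k)` has nonnegative exponents and smaller degree; if `n > m` use
`t^(n-m) f_(m,k)` instead. (Alternatively work with the submodule of elements with nonnegative
exponents.) -/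
def S_NoeZ : Prop :=
  ∀ (LL N : Type) [CommRing LL] [Group N] (π : N →* Multiplicative ℤ),
    IsNoetherianRing (MonoidAlgebra LL π.ker) → IsNoetherianRing (MonoidAlgebra LL N)

/-- Y8 (Poly). Group rings of polycyclic groups are noetherian.
PROOF. Induction with Y6, Y7; for the trivial group `LL[N] ≃+* LL` (surjection `LL → LL[N]`,
`isNoetherianRing_of_surjective`). -/
def S_Poly : Prop :=
  ∀ (LL N : Type) [CommRing LL] [IsNoetherianRing LL] [Group N], PolyC N →
    IsNoetherianRing (MonoidAlgebra LL N)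

end Pool.Agent.WaldX
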